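import Pool.Agent.H75.HCI.GPC
import Mathlib.MeasureTheory.MeasurableSpace.Constructions

/-!
# Arrays in structures with few substructures

`SmallE t e N`: there is no Borel family of unions of classes of `N` which are pairwise not isomorphic over
finitely many marks.
-/

set_option autoImplicit false

namespace Pool.Agent.H75.HCI

open Set

/-- There is no Borel family of infinite unions of classes of `N` with common marks `z` which are pairwise
not isomorphic over the marks. -/
def SmallE {α β L : Type} (t : List α → L) (e : α → β) (N : Set α) : Prop :=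
  ∀ (A : (ℕ → Bool) → Set α) (z : List α), (∀ x, MeasurableSet {K | x ∈ A K}) →
    (∀ K, (A K).Infinite) → (∀ K, A K ⊆ N) → (∀ K, ∀ x ∈ A K, ∀ y ∈ N, e y = e x → y ∈ A K) →
    (∀ K, ∀ x ∈ z, x ∈ A K) →
    ∃ K K', K ≠ K' ∧ ∃ g : α → α, Emb t e t e g (A K) ∧ g '' A K = A K' ∧ ∀ x ∈ z, g x = x

/-- The sizes of the blocks grow fast. -/
def SF (k : ℕ) (S : ℕ → ℕ) : Prop := ∀ n, k + ∑ j ∈ Finset.range n, (S j + k) < S n

/-- The array `pt` with blocks of sizes `S` lies in `N` over the marks `z`. -/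
structure Arr {α β L : Type} (t : List α → L) (e : α → β) (N : Set α) (z : List α) {k κ : ℕ}
    (cl : Fin k → Fin k) (T : List (Idx k κ) → L) (S : ℕ → ℕ) (pt : Idx k κ → α) : Prop where
  inj : InjOn pt (V k κ S)
  maps : MapsTo pt (V k κ S) N
  cls : ∀ p ∈ V k κ S, ∀ q ∈ V k κ S, (e (pt p) = e (pt q) ↔ ec cl p = ec cl q)
  full : ∀ p ∈ V k κ S, ∀ y ∈ N, e y = e (pt p) → ∃ q ∈ V k κ S, pt q = y
  mark : ∀ x ∈ z, x ∈ N
  markE : ∀ x ∈ z, ∀ y ∈ N, e y = e x → y ∈ z
  disj : ∀ p ∈ V k κ S, pt p ∉ z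
  lab : ∀ l : List (Idx k κ), (∀ p ∈ l, p ∈ V k κ S) → T l = t (z ++ l.map pt)

/-- GPM: the growing blocks lemma for arrays in structures with few substructures. -/
def T_GPM : Prop := ∀ (α β L : Type) (t : List α → L) (e : α → β) (N : Set α) (z : List α)
  (k κ : ℕ) (cl : Fin k → Fin k) (T : List (Idx k κ) → L) (S : ℕ → ℕ) (pt : Idx k κ → α),
  SmallE t e N → 1 ≤ κ → SF k S → PatInv T → Arr t e N z cl T S pt →
  ∃ In : Set (Fin k), In ⊆ range cl ∧ SPart T (ec cl) (univ : Set (Idx k κ))
    {q : ℕ × (Fin k ⊕ ℕ) | ∀ β, q.2 = .inl β → β ∈ In}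

/-! ## Almost disjoint sets -/

/-- The beginning of a sequence as a number. -/
noncomputable def bc (c : ℕ → Bool) (n : ℕ) : ℕ := Encodable.encode ((List.range n).map c)

lemma bc_inj {c c' : ℕ → Bool} {n n' : ℕ} (h : bc c n = bc c' n') :
    n = n' ∧ ∀ i < n, c i = c' i := by
  have h1 := Encodable.encode_injective h
  have h2 : n = n' := by
    have := congrArg List.length h1
    simpa using this
  subst h2
  refine ⟨rfl, fun i hi => ?_⟩
  have := List.map_inj_left.1 h1 i (List.mem_range.2 hi)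
  exact this

/-- The branch of a sequence. -/
def br (c : ℕ → Bool) : Set ℕ := range (bc c)

lemma br_infinite (c : ℕ → Bool) : (br c).Infinite :=
  infinite_range_of_injective fun _ _ h => (bc_inj h).1

lemma br_inter {c c' : ℕ → Bool} (h : c ≠ c') : (br c ∩ br c').Finite := by
  obtain ⟨i, hi⟩ := Function.ne_iff.1 h
  refine ((finite_Iic i).image (bc c)).subset ?_
  rintro a ⟨⟨n, rfl⟩, ⟨n', hn'⟩⟩
  refine ⟨n, ?_, rfl⟩
  rw [mem_Iic]
  by_contra hcon
  push Not at hcon
  obtain ⟨h1, h2⟩ := bc_inj hn'.symm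
  exact hi (h2 i hcon)

lemma br_measurable (a : ℕ) : MeasurableSet {c : ℕ → Bool | a ∈ br c} := by
  have h1 : {c : ℕ → Bool | a ∈ br c} = ⋃ n, {c | bc c n = a} := by
    ext c
    simp only [br, mem_range, mem_ofPred_eq, mem_iUnion]
  rw [h1]
  refine MeasurableSet.iUnion fun n => ?_
  by_cases hex : ∃ c0 : ℕ → Bool, bc c0 n = a
  · obtain ⟨c0, rfl⟩ := hex
    have h2 : {c : ℕ → Bool | bc c n = bc c0 n} = ⋂ i ∈ Finset.range n, {c | c i = c0 i} := by
      ext c
      simp only [mem_ofPred_eq, mem_iInter, Finset.mem_range]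
      refine ⟨fun h i hi => (bc_inj h).2 i hi, fun h => ?_⟩
      unfold bc
      congr 1
      exact List.map_congr_left fun i hi => h i (List.mem_range.1 hi)
    rw [h2]
    refine Finset.measurableSet_biInter _ fun i _ => ?_
    have h3 : Measurable fun f : ℕ → Bool => f i := measurable_pi_apply i
    have h4 := h3 (measurableSet_singleton (c0 i))
    exact h4
  · have : {c : ℕ → Bool | bc c n = a} = ∅ :=
      eq_empty_of_forall_notMem fun c hc => hex ⟨c, hc⟩
    rw [this]
    exact MeasurableSet.empty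

/-- The enumeration of an infinite set. -/
lemma exists_enum (B : Set ℕ) (hB : B.Infinite) : ∃ φ : ℕ → ℕ, StrictMono φ ∧ range φ = B := by
  refine ⟨Nat.nth (· ∈ B), Nat.nth_strictMono hB, ?_⟩
  have h := Nat.range_nth_of_infinite (p := (· ∈ B)) hB
  exact h

lemma sf_mono {k : ℕ} {S : ℕ → ℕ} (hS : SF k S) : StrictMono S := by
  refine strictMono_nat_of_lt_succ fun n => ?_
  have h := hS (n + 1)
  rw [Finset.sum_range_succ] at h
  omega

lemma sf_step {k : ℕ} {S : ℕ → ℕ} (hS : SF k S) {n m : ℕ} (h : n < m) : S n + k < S m := by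
  have h1 := hS (n + 1)
  rw [Finset.sum_range_succ] at h1
  have h2 : S (n + 1) ≤ S m := (sf_mono hS).monotone h
  omega

/-- The size functions of two almost disjoint sets. -/
lemma fast_of {k : ℕ} {S : ℕ → ℕ} (hS : SF k S) {φ φ' : ℕ → ℕ} (hφ : StrictMono φ)
    (hφ' : StrictMono φ') (hfin : (range φ ∩ range φ').Finite) :
    Fast k (fun i => S (φ i)) fun i => S (φ' i) := by
  classical
  obtain ⟨b, hb⟩ := hfin.bddAbove
  refine Filter.eventually_atTop.2 ⟨b + 1, fun i hi => ?_⟩
  have hout : ∀ j, φ' j ≠ φ i := by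
    intro j hj
    have h1 : φ i ≤ b := hb ⟨⟨i, rfl⟩, ⟨j, hj⟩⟩
    have h2 : i ≤ φ i := hφ.id_le i
    omega
  refine ⟨((Finset.range (φ i)).filter fun n => n ∈ range φ').card, fun j hj => ?_, ?_⟩
  · refine sf_step hS ?_
    by_contra hcon
    push Not at hcon
    have hlt : φ' j < φ i := lt_of_le_of_ne hcon (hout j)
    have h1 : (Finset.range (j + 1)).image φ' ⊆
        (Finset.range (φ i)).filter fun n => n ∈ range φ' := by
      intro a ha
      obtain ⟨j', hj', rfl⟩ := Finset.mem_image.1 ha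
      rw [Finset.mem_filter, Finset.mem_range]
      have h2 : φ' j' ≤ φ' j := hφ'.monotone (Nat.lt_succ_iff.1 (Finset.mem_range.1 hj'))
      exact ⟨by omega, ⟨j', rfl⟩⟩
    have h3 := Finset.card_le_card h1
    rw [Finset.card_image_of_injective _ hφ'.injective, Finset.card_range] at h3
    omega
  · have hsub : (Finset.range ((Finset.range (φ i)).filter fun n => n ∈ range φ').card).image φ' ⊆
        Finset.range (φ i) := by
      intro a ha
      obtain ⟨j, hj, rfl⟩ := Finset.mem_image.1 ha
      rw [Finset.mem_range] at hj ⊢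
      by_contra hcon
      push Not at hcon
      have h1 : ((Finset.range (φ i)).filter fun n => n ∈ range φ') ⊆
          (Finset.range j).image φ' := by
        intro a ha
        rw [Finset.mem_filter, Finset.mem_range] at ha
        obtain ⟨h2, j', rfl⟩ := ha
        refine Finset.mem_image.2 ⟨j', Finset.mem_range.2 ?_, rfl⟩
        exact hφ'.lt_iff_lt.1 (by omega)
      have h2 := (Finset.card_le_card h1).trans Finset.card_image_le
      rw [Finset.card_range] at h2
      omega
    have h1 := Finset.sum_le_sum_of_subset (f := fun n => S n + k) hsub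
    rw [Finset.sum_image fun a _ b _ h => hφ'.injective h] at h1
    have h2 := hS (φ i)
    change k + ∑ j ∈ Finset.range ((Finset.range (φ i)).filter fun n => n ∈ range φ').card,
      (S (φ' j) + k) < S (φ i)
    omega

end Pool.Agent.H75.HCI
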