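import Pool.Agent.H75.HCI.GPB

/-!
# GP: the proof of the growing blocks lemma
-/

set_option autoImplicit false

namespace Pool.Agent.H75.HCI

open Set

section

variable {k κ : ℕ} {L : Type} {cl : Fin k → Fin k} {T : List (Idx k κ) → L}

/-- The classes with a small index. -/
lemma small_classes (k : ℕ) (s' : ℕ → ℕ) (J : ℕ) :
    ∃ F : Finset (ℕ × (Fin k ⊕ ℕ)), F.card ≤ ∑ j ∈ Finset.range J, (s' j + k) ∧
      ∀ (j : ℕ) (z : Fin k ⊕ ℕ), j < J → (∀ m, z = .inr m → m < s' j) → (j, z) ∈ F := by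
  classical
  refine ⟨(Finset.range J).biUnion fun j => ((Finset.range (s' j)).image fun m => (j, .inr m)) ∪
    ((Finset.univ : Finset (Fin k)).image fun β => (j, .inl β)), ?_, ?_⟩
  · refine Finset.card_biUnion_le.trans (Finset.sum_le_sum fun j _ => ?_)
    refine (Finset.card_union_le _ _).trans (add_le_add ?_ ?_)
    · exact Finset.card_image_le.trans (by simp)
    · exact Finset.card_image_le.trans (by simp)
  · intro j z hj hz
    rw [Finset.mem_biUnion]
    refine ⟨j, Finset.mem_range.2 hj, ?_⟩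
    rw [Finset.mem_union, Finset.mem_image, Finset.mem_image]
    rcases z with β | m
    · exact Or.inr ⟨β, Finset.mem_univ _, rfl⟩
    · exact Or.inl ⟨m, Finset.mem_range.2 (hz m rfl), rfl⟩

lemma ec_mem {s : ℕ → ℕ} {q : ℕ × (Fin k ⊕ ℕ)} (hq : q ∈ ec cl '' V k κ s) :
    (∃ b : Fin k, q = ec cl ((q.1, .inl b) : Idx k κ)) ∨ ∃ m, q = (q.1, .inr m) ∧ m < s q.1 := by
  obtain ⟨⟨i, z⟩, hp, rfl⟩ := hq
  rcases z with b | u
  · exact Or.inl ⟨b, rfl⟩
  · exact Or.inr ⟨u.1, rfl, hp u rfl⟩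

/-- All blocks are equivalent. -/
theorem gp_blocks (hκ : 1 ≤ κ) (hT : PatInv T) {s s' : ℕ → ℕ} (hs : StrictMono s)
    (hs' : StrictMono s') (h1 : ∀ i, 1 ≤ s i) (hF : Fast k s s')
    {g : Idx k κ → Idx k κ} (hg : Emb T (ec cl) T (ec cl) g (V k κ s))
    (hgb : g '' V k κ s = V k κ s') (i i' : ℕ) :
    Eqv T (ec cl) (V k κ s) (ec cl (i, .inr (0, ⟨0, hκ⟩))) (ec cl (i', .inr (0, ⟨0, hκ⟩))) := by
  classical
  have : Nonempty (Idx k κ) := ⟨(0, .inr (0, ⟨0, hκ⟩))⟩
  refine blocks_all hκ hT hs h1 ?_ i i'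
  by_contra hcon
  push Not at hcon
  obtain ⟨J0, h0⟩ := hcon
  obtain ⟨J1, hJ1, hone⟩ := coord_once hκ hT hs J0 h0
  have hmem : ∀ i m (c : Fin κ), m < s i → ((i, .inr (m, c)) : Idx k κ) ∈ V k κ s := by
    intro i m c hm q hq
    simp only [Sum.inr.injEq] at hq
    rw [← hq]
    exact hm
  have hpb : ∀ i, ((i, .inr (0, ⟨0, hκ⟩)) : Idx k κ) ∈ V k κ s := fun i => hmem i 0 _ (h1 i)
  have hmg : ∀ p ∈ V k κ s, g p ∈ V k κ s' := fun p hp => by rw [← hgb]; exact ⟨p, hp, rfl⟩
  set Q : ℕ → Set (ℕ × (Fin k ⊕ ℕ)) := fun i =>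
    {y | Eqv T (ec cl) (V k κ s) (ec cl (i, .inr (0, ⟨0, hκ⟩))) y} with hQ
  set Q' : ℕ → Set (ℕ × (Fin k ⊕ ℕ)) := fun i =>
    {y | Eqv T (ec cl) (V k κ s') (ec cl (g (i, .inr (0, ⟨0, hκ⟩)))) y} with hQ'
  -- the size of `Q i`
  have hQsnd : ∀ i, J1 ≤ i → InjOn Prod.snd (Q i) ∧ ∀ y ∈ Q i, y.2 ∈
      ((Finset.univ : Finset (Fin k)).disjSum (Finset.range (s i)) : Finset (Fin k ⊕ ℕ)) := by
    intro i hi
    have hblk : ∀ y ∈ Q i, ∀ m, y.2 = .inr m → y.1 = i ∧ m < s i := by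
      intro y hy m hm
      rcases ec_mem (eqv_mem hy).2 with ⟨b, hb⟩ | ⟨m', hm1, hm2⟩
      · rw [hb] at hm
        simp [ec] at hm
      · have hmm : m' = m := by
          rw [hm1] at hm
          simpa using hm
        subst hmm
        have h2 : y.1 = i := by
          by_contra hne
          refine h0 i (hJ1.trans hi) y.1 hne ?_
          have hy' : Eqv T (ec cl) (V k κ s) (ec cl (i, .inr (0, ⟨0, hκ⟩))) (y.1, .inr m') := by
            rw [← hm1]
            exact hy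
          exact eqv_trans hy' (eqv_block hκ hT s y.1 m' 0 hm2 (h1 _))
        exact ⟨h2, h2 ▸ hm2⟩
    refine ⟨fun y hy z hz hyz => ?_, fun y hy => ?_⟩
    · refine Prod.ext ?_ hyz
      rcases hy2 : y.2 with β | m
      · rcases ec_mem (eqv_mem hy).2 with ⟨b, hb⟩ | ⟨m', hm1, hm2⟩
        · by_contra hne
          have hzb : z = ec cl ((z.1, .inl b) : Idx k κ) := by
            refine Prod.ext rfl ?_
            rw [← hyz, hb]
            rfl
          have hyQ : Eqv T (ec cl) (V k κ s) (ec cl (i, .inr (0, ⟨0, hκ⟩)))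
              (ec cl ((y.1, .inl b) : Idx k κ)) := by rw [← hb]; exact hy
          have hzQ : Eqv T (ec cl) (V k κ s) (ec cl (i, .inr (0, ⟨0, hκ⟩)))
              (ec cl ((z.1, .inl b) : Idx k κ)) := by rw [← hzb]; exact hz
          rcases lt_or_gt_of_ne hne with h | h
          · exact hone i hi b _ _ h hyQ hzQ
          · exact hone i hi b _ _ h hzQ hyQ
        · rw [hm1] at hy2
          cases hy2
      · rw [(hblk y hy m hy2).1, (hblk z hz m (hyz ▸ hy2)).1]
    · rcases hy2 : y.2 with β | m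
      · simp
      · simp [(hblk y hy m hy2).2]
  have hQfin : ∀ i, J1 ≤ i → (Q i).Finite := fun i hi =>
    Set.Finite.of_injOn (fun y hy => (hQsnd i hi).2 y hy) (hQsnd i hi).1 (Finset.finite_toSet _)
  have hQcard : ∀ i, J1 ≤ i → (Q i).ncard ≤ s i + k := by
    intro i hi
    have h2 := Set.ncard_le_ncard_of_injOn Prod.snd (fun y hy => (hQsnd i hi).2 y hy)
      (hQsnd i hi).1 (Finset.finite_toSet _)
    rw [Set.ncard_coe_finset, Finset.card_disjSum] at h2
    simp only [Finset.card_univ, Fintype.card_fin, Finset.card_range] at h2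
    omega
  -- the class map of `g`
  have hγ : ∀ y : ℕ × (Fin k ⊕ ℕ), ∃ y' : ℕ × (Fin k ⊕ ℕ),
      ∀ p ∈ V k κ s, ec cl p = y → ec cl (g p) = y' := by
    intro y
    by_cases hy : ∃ p ∈ V k κ s, ec cl p = y
    · obtain ⟨p, hp, rfl⟩ := hy
      exact ⟨ec cl (g p), fun q hq hqp => (hg.cls q hq p hp).2 hqp⟩
    · exact ⟨y, fun p hp hpy => absurd ⟨p, hp, hpy⟩ hy⟩
  choose γ hγ using hγ
  have hQ'sub : ∀ i, Q' i ⊆ γ '' Q i := by
    intro i y hy
    obtain ⟨q, hq, rfl⟩ := (eqv_mem hy).2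
    rw [← hgb] at hq
    obtain ⟨p, hp, rfl⟩ := hq
    refine ⟨ec cl p, ?_, (hγ _ p hp rfl).symm⟩
    exact (eqv_iso hg hgb (hpb i) hp).2 hy
  have hQ'fin : ∀ i, J1 ≤ i → (Q' i).Finite := fun i hi => ((hQfin i hi).image γ).subset (hQ'sub i)
  have hQ'card : ∀ i, J1 ≤ i → (Q' i).ncard ≤ s i + k := fun i hi =>
    (Set.ncard_le_ncard (hQ'sub i) ((hQfin i hi).image γ)).trans
      ((Set.ncard_image_le (hQfin i hi)).trans (hQcard i hi))
  have hQ'low : ∀ i, J1 ≤ i → s i ≤ (Q' i).ncard := by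
    intro i hi
    have h2 := Set.ncard_le_ncard_of_injOn (s := ((Finset.range (s i) : Finset ℕ) : Set ℕ))
      (fun m => ec cl (g ((i, .inr (m, ⟨0, hκ⟩)) : Idx k κ))) (t := Q' i) (by
        intro m hm
        have hm' : m < s i := Finset.mem_range.1 hm
        exact (eqv_iso hg hgb (hpb i) (hmem i m _ hm')).1 (eqv_block hκ hT s i 0 m (h1 i) hm'))
      (by
        intro m hm m' hm' h
        have h3 := (hg.cls _ (hmem i m ⟨0, hκ⟩ (Finset.mem_range.1 hm)) _
          (hmem i m' ⟨0, hκ⟩ (Finset.mem_range.1 hm'))).1 h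
        simpa [ec] using h3) (hQ'fin i hi)
    rwa [Set.ncard_coe_finset, Finset.card_range] at h2
  -- pairs in `Q' i`
  have hpair : ∀ i, J1 ≤ i → ∀ J, (∀ j, J ≤ j → s i + k < s' j) →
      k + ∑ j ∈ Finset.range J, (s' j + k) < s i → ∃ b j j', J ≤ j ∧ j < j' ∧
        ec cl ((j, .inl b) : Idx k κ) ∈ Q' i ∧ ec cl ((j', .inl b) : Idx k κ) ∈ Q' i := by
    intro i hi J hJ hsum
    obtain ⟨F, hF1, hF2⟩ := small_classes k s' J
    have hblk : ∀ y ∈ Q' i, ∀ m, y.2 = .inr m → y.1 < J := by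
      intro y hy m hm
      by_contra hge
      push Not at hge
      rcases ec_mem (eqv_mem hy).2 with ⟨b, hb⟩ | ⟨m', hm1, hm2⟩
      · rw [hb] at hm
        simp [ec] at hm
      · have h2 := Set.ncard_le_ncard_of_injOn (s := ((Finset.range (s' y.1) : Finset ℕ) : Set ℕ))
          (fun n => ((y.1, .inr n) : ℕ × (Fin k ⊕ ℕ))) (t := Q' i) (by
            intro n hn
            have hn' : n < s' y.1 := Finset.mem_range.1 hn
            have hy' : Eqv T (ec cl) (V k κ s') (ec cl (g (i, .inr (0, ⟨0, hκ⟩))))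
              (y.1, .inr m') := by rw [← hm1]; exact hy
            exact eqv_trans hy' (eqv_block hκ hT s' y.1 m' n hm2 hn'))
          (by
            intro n _ n' _ h
            simpa using h) (hQ'fin i hi)
        rw [Set.ncard_coe_finset, Finset.card_range] at h2
        have h3 := hJ y.1 hge
        have h4 := hQ'card i hi
        omega
    set A2 : Set (ℕ × (Fin k ⊕ ℕ)) := Q' i \ F with hA2
    have hA2fin : A2.Finite := (hQ'fin i hi).subset Set.sdiff_subset
    have hA2card : k < A2.ncard := by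
      have h2 : (Q' i).ncard ≤ A2.ncard + F.card := by
        have h3 : Q' i ⊆ A2 ∪ F := fun y hy => by
          by_cases hyF : y ∈ F
          · exact Or.inr hyF
          · exact Or.inl ⟨hy, hyF⟩
        have h4 := (Set.ncard_le_ncard h3 (hA2fin.union (Finset.finite_toSet _))).trans
          (Set.ncard_union_le _ _)
        rwa [Set.ncard_coe_finset] at h4
      have h3 := hQ'low i hi
      omega
    have hA2mem : ∀ y ∈ A2, J ≤ y.1 ∧ ∃ b, y = ec cl ((y.1, .inl b) : Idx k κ) := by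
      rintro y ⟨hy, hyF⟩
      rcases ec_mem (eqv_mem hy).2 with ⟨b, hb⟩ | ⟨m', hm1, hm2⟩
      · refine ⟨?_, b, hb⟩
        by_contra hlt
        push Not at hlt
        refine hyF ?_
        have := hF2 y.1 y.2 hlt (by
          intro m hm
          rw [hb] at hm
          simp [ec] at hm)
        exact this
      · exfalso
        have hlt := hblk y hy m' (by rw [hm1])
        refine hyF ?_
        have := hF2 y.1 y.2 hlt (by
          intro m hm
          rw [hm1] at hm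
          simp only [Sum.inr.injEq] at hm
          rw [← hm]
          exact hm2)
        exact this
    obtain ⟨y, hy, z, hz, hyz, hsnd⟩ := Set.exists_ne_map_eq_of_ncard_lt_of_maps_to
      (s := A2) (t := range (Sum.inl : Fin k → Fin k ⊕ ℕ)) (f := Prod.snd) (by
        rw [← image_univ, Set.ncard_image_of_injective _ Sum.inl_injective, Set.ncard_univ,
          Nat.card_eq_fintype_card, Fintype.card_fin]
        exact hA2card) (by
        intro y hy
        obtain ⟨_, b, hb⟩ := hA2mem y hy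
        rw [hb]
        exact ⟨cl b, rfl⟩) (finite_range _)
    obtain ⟨hyJ, b, hb⟩ := hA2mem y hy
    obtain ⟨hzJ, _⟩ := hA2mem z hz
    have hzb : z = ec cl ((z.1, .inl b) : Idx k κ) := by
      refine Prod.ext rfl ?_
      rw [← hsnd, hb]
      rfl
    have hne : y.1 ≠ z.1 := fun h => hyz (Prod.ext h hsnd)
    rcases lt_or_gt_of_ne hne with h | h
    · exact ⟨b, y.1, z.1, hyJ, h, by rw [← hb]; exact hy.1, by rw [← hzb]; exact hz.1⟩
    · exact ⟨b, z.1, y.1, hzJ, h, by rw [← hzb]; exact hz.1, by rw [← hb]; exact hy.1⟩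
  -- pairs with unbounded indices
  obtain ⟨I0, hI0⟩ := Filter.eventually_atTop.1 hF
  obtain ⟨b, hb⟩ := unif (fun (b : Fin k) J => ∃ i, J1 ≤ i ∧ ∃ j j', J ≤ j ∧ j < j' ∧
      ec cl ((j, .inl b) : Idx k κ) ∈ Q' i ∧ ec cl ((j', .inl b) : Idx k κ) ∈ Q' i)
    (by
      rintro b J J' hJ ⟨i, hi, j, j', h2, h3⟩
      exact ⟨i, hi, j, j', hJ.trans h2, h3⟩)
    (by
      intro J
      set i := max (max I0 J1) (s' J) with hi
      have hiI : I0 ≤ i := (le_max_left _ _).trans (le_max_left _ _)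
      have hiJ : J1 ≤ i := (le_max_right _ _).trans (le_max_left _ _)
      obtain ⟨Ji, hJi1, hJi2⟩ := hI0 i hiI
      obtain ⟨b, j, j', h2, h3, h4⟩ := hpair i hiJ Ji hJi1 hJi2
      refine ⟨b, i, hiJ, j, j', ?_, h3, h4⟩
      by_contra hlt
      push Not at hlt
      have h5 := hJi1 J (h2.trans hlt.le)
      have h6 : s' J ≤ i := le_max_right _ _
      have h7 : i ≤ s i := hs.id_le i
      omega)
  have hw : ∀ i, ((i, .inl b) : Idx k κ) ∈ V k κ s' := by
    intro i q hq
    cases hq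
  have hall : ∀ j j', Eqv T (ec cl) (V k κ s') (ec cl ((j, .inl b) : Idx k κ))
      (ec cl ((j', .inl b) : Idx k κ)) := by
    refine mp_all hT hs' _ hw fun J => ?_
    obtain ⟨i, _, j, j', h2, h3, h4, h5⟩ := hb J
    exact ⟨j, j', h2, h3, eqv_trans (eqv_symm h4) h5⟩
  obtain ⟨i, hi, j, _, _, _, h4, _⟩ := hb 0
  refine Set.infinite_of_injective_forall_mem (f := fun n : ℕ => ec cl ((n, .inl b) : Idx k κ))
    (fun n n' h => ?_) (fun n => ?_) (hQ'fin i hi)
  · simpa [ec] using h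
  · exact eqv_trans h4 (hall j n)

end

/-- GP: the growing blocks lemma. -/
theorem pf_GP : T_GP := by
  classical
  intro k κ L cl T s s' g hκ hT hs hs' h1 hF hg hgb
  have hblocks := gp_blocks hκ hT hs hs' h1 hF hg hgb
  have hmem : ∀ i m (c : Fin κ), m < s i → ((i, .inr (m, c)) : Idx k κ) ∈ V k κ s := by
    intro i m c hm q hq
    simp only [Sum.inr.injEq] at hq
    rw [← hq]
    exact hm
  have hpb : ∀ i, ((i, .inr (0, ⟨0, hκ⟩)) : Idx k κ) ∈ V k κ s := fun i => hmem i 0 _ (h1 i)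
  set x0 : ℕ × (Fin k ⊕ ℕ) := ec cl ((0, .inr (0, ⟨0, hκ⟩)) : Idx k κ) with hx0
  have hcomp : SPart T (ec cl) (V k κ s) {y | Eqv T (ec cl) (V k κ s) x0 y} :=
    spart_comp ⟨_, hpb 0, rfl⟩
  set In : Set (Fin k) := {β | β ∈ range cl ∧
    ∀ J, ∃ j, J ≤ j ∧ Eqv T (ec cl) (V k κ s) x0 (j, .inl β)} with hIn
  have hInall : ∀ β ∈ In, ∀ j, Eqv T (ec cl) (V k κ s) x0 (j, .inl β) := by
    rintro β ⟨⟨b, rfl⟩, hβ⟩ j
    have hw : ∀ i, ((i, .inl b) : Idx k κ) ∈ V k κ s := by
      intro i q hq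
      cases hq
    have hall : ∀ j j', Eqv T (ec cl) (V k κ s) (ec cl ((j, .inl b) : Idx k κ))
        (ec cl ((j', .inl b) : Idx k κ)) := by
      refine mp_all hT hs _ hw fun J => ?_
      obtain ⟨j, hj, h2⟩ := hβ J
      obtain ⟨j', hj', h3⟩ := hβ (j + 1)
      exact ⟨j, j', hj, hj', eqv_trans (eqv_symm h2) h3⟩
    obtain ⟨j0, _, h2⟩ := hβ 0
    exact eqv_trans h2 (hall j0 j)
  -- outside `In`
  have hout : ∃ J, ∀ β, β ∉ In → ∀ j, J ≤ j → ¬ Eqv T (ec cl) (V k κ s) x0 (j, .inl β) := by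
    have h2 : ∀ β : Fin k, ∃ J, β ∉ In → ∀ j, J ≤ j →
        ¬ Eqv T (ec cl) (V k κ s) x0 (j, .inl β) := by
      intro β
      by_cases hβ : β ∈ In
      · exact ⟨0, fun h => absurd hβ h⟩
      · by_cases hr : β ∈ range cl
        · have h3 : ¬ ∀ J, ∃ j, J ≤ j ∧ Eqv T (ec cl) (V k κ s) x0 (j, .inl β) :=
            fun h => hβ ⟨hr, h⟩
          push Not at h3
          obtain ⟨J, hJ⟩ := h3
          exact ⟨J, fun _ => hJ⟩
        · refine ⟨0, fun _ j _ h => hr ?_⟩
          rcases ec_mem (eqv_mem h).2 with ⟨b, hb⟩ | ⟨m, hm, _⟩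
          · simp only [ec, Sum.elim_inl, Prod.mk.injEq, Sum.inl.injEq, true_and] at hb
            exact ⟨b, hb.symm⟩
          · simp at hm
    choose J hJ using h2
    exact ⟨Finset.univ.sup J, fun β hβ j hj => hJ β hβ j
      (le_trans (Finset.le_sup (Finset.mem_univ β)) hj)⟩
  obtain ⟨Jo, hJo⟩ := hout
  refine ⟨In, fun β hβ => hβ.1, ?_, ?_⟩
  · rintro ⟨i, z⟩ hz
    rcases z with β | m
    · obtain ⟨⟨b, rfl⟩, _⟩ := hz β rfl
      exact ⟨(i, .inl b), mem_univ _, rfl⟩
    · exact ⟨(i, .inr (m, ⟨0, hκ⟩)), mem_univ _, rfl⟩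
  · intro C D1 D2 hC h2 h3 hcard
    -- a large shift
    set U := C ∪ D1 ∪ D2 with hU
    obtain ⟨M, hM⟩ : ∃ M, ∀ q ∈ U, ∀ m, q.2 = .inr m → m < M := by
      refine ⟨(U.sup fun q => q.2.elim (fun _ => 0) id) + 1, fun q hq m hm => ?_⟩
      have := Finset.le_sup (f := fun q : ℕ × (Fin k ⊕ ℕ) => q.2.elim (fun _ => 0) id) hq
      simp only [hm, Sum.elim_inr, id] at this
      omega
    set i0 := max Jo M with hi0
    set P0 : Set (ℕ × (Fin k ⊕ ℕ)) := {q | ∀ m, q.2 = .inr m → m < s i0} with hP0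
    have hUP : ∀ q ∈ U, q ∈ P0 := by
      intro q hq m hm
      have e1 := hM q hq m hm
      have e2 : i0 ≤ s i0 := hs.id_le i0
      have e3 : M ≤ i0 := le_max_right _ _
      omega
    set φ : ℕ → ℕ := fun n => n + i0 with hφ
    have hφm : StrictMono φ := fun a b hab => Nat.add_lt_add_right hab i0
    set N0 : Set (Idx k κ) := Pt (ec cl) univ P0 with hN0
    have hmaps : MapsTo (sh φ) N0 (V k κ s) := by
      intro p hp q hq
      have h4 : ec cl p = (p.1, .inr q.1) := by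
        have : p.2 = .inr q := hq
        simp [ec, this]
      have h5 := hp.2 q.1 (by rw [h4])
      exact lt_of_lt_of_le h5 (hs.monotone (Nat.le_add_left _ _))
    have hpre := spart_preimage (N := N0) (h := sh φ) (emb_of_pat hT (pat_sh hφm _)) hmaps
      (fun x hx y hy hxy => by
        obtain ⟨x', _, hx2, hx3⟩ := sh_full (s := fun _ => s i0) x y hy hxy (fun q hq => by
          have h4 : ec cl x = (x.1, .inr q.1) := by simp [ec, hq]
          exact hx.2 q.1 (by rw [h4]))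
        refine ⟨x', ⟨mem_univ _, ?_⟩, hx2⟩
        have h5 : ec cl x' = ec cl x := by
          have h6 : ec cl (sh φ x') = ec cl (sh φ x) := by rw [hx2, hxy]
          simp only [ec, sh, Prod.mk.injEq] at h6 ⊢
          exact ⟨hx3, h6.2⟩
        rw [h5]
        exact hx.2) hcomp
    have hcls : ∀ q : ℕ × (Fin k ⊕ ℕ), ∀ x ∈ N0, ec cl x = q →
        ec cl (sh φ x) = (q.1 + i0, q.2) := by
      rintro q x _ rfl
      rfl
    obtain ⟨f, f1, f2, f3⟩ := hpre.hom C D1 D2 (by
        rintro c hc ⟨x, hx, rfl, hcx⟩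
        have h4 := hC _ hc
        rw [mem_ofPred_eq] at h4
        push Not at h4
        obtain ⟨β, hβ1, hβ2⟩ := h4
        refine hJo β hβ2 ((ec cl x).1 + i0) ?_ ?_
        · exact le_trans (le_max_left _ _) (Nat.le_add_left _ _)
        · rw [← hβ1]
          exact hcx) (by
        intro d hd
        obtain ⟨i, z⟩ := d
        have hdP := hUP _ (Finset.mem_union_left _ (Finset.mem_union_right _ hd))
        rcases z with β | m
        · have hβ := h2 _ hd β rfl
          obtain ⟨b, hb⟩ := hβ.1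
          refine ⟨(i, .inl b), ⟨mem_univ _, ?_⟩, by rw [← hb]; rfl, ?_⟩
          · intro m hm
            simp [ec] at hm
          · have := hInall β hβ (i + i0)
            rw [← hb] at this
            exact this
        · refine ⟨(i, .inr (m, ⟨0, hκ⟩)), ⟨mem_univ _, hdP⟩, rfl, ?_⟩
          have h4 : m < s (i + i0) :=
            lt_of_lt_of_le (hdP m rfl) (hs.monotone (Nat.le_add_left _ _))
          exact eqv_trans (hblocks 0 (i + i0)) (eqv_block hκ hT s (i + i0) 0 m (h1 _) h4)) (by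
        intro d hd
        obtain ⟨i, z⟩ := d
        have hdP := hUP _ (Finset.mem_union_right _ hd)
        rcases z with β | m
        · have hβ := h3 _ hd β rfl
          obtain ⟨b, hb⟩ := hβ.1
          refine ⟨(i, .inl b), ⟨mem_univ _, ?_⟩, by rw [← hb]; rfl, ?_⟩
          · intro m hm
            simp [ec] at hm
          · have := hInall β hβ (i + i0)
            rw [← hb] at this
            exact this
        · refine ⟨(i, .inr (m, ⟨0, hκ⟩)), ⟨mem_univ _, hdP⟩, rfl, ?_⟩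
          have h4 : m < s (i + i0) :=
            lt_of_lt_of_le (hdP m rfl) (hs.monotone (Nat.le_add_left _ _))
          exact eqv_trans (hblocks 0 (i + i0)) (eqv_block hκ hT s (i + i0) 0 m (h1 _) h4)) hcard
    have hPt : ∀ P : Set (ℕ × (Fin k ⊕ ℕ)), P ⊆ U → Pt (ec cl) N0 P = Pt (ec cl) univ P := by
      intro P hP
      ext x
      exact ⟨fun hx => ⟨mem_univ _, hx.2⟩, fun hx => ⟨⟨mem_univ _, hUP _ (hP hx.2)⟩, hx.2⟩⟩
    have hCU : (C : Set (ℕ × (Fin k ⊕ ℕ))) ⊆ U := fun q hq =>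
      Finset.mem_union_left _ (Finset.mem_union_left _ hq)
    have hDU : (D1 : Set (ℕ × (Fin k ⊕ ℕ))) ⊆ U := fun q hq =>
      Finset.mem_union_left _ (Finset.mem_union_right _ hq)
    have hDU2 : (D2 : Set (ℕ × (Fin k ⊕ ℕ))) ⊆ U := fun q hq => Finset.mem_union_right _ hq
    rw [hPt _ (union_subset hCU hDU)] at f1
    rw [hPt _ hDU, hPt _ hDU2] at f2
    rw [hPt _ hCU] at f3
    exact ⟨f, f1, f2, f3⟩

end Pool.Agent.H75.HCI
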