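import Pool.Agent.H75.HCI.Defs
import Pool.Agent.H75.HCI.RAM

/-!
# Pattern invariant arrays from infinite arrays
-/

set_option autoImplicit false

namespace Pool.Agent.H75.HCI

open Set

/-- Two tuples of points of an array have the same pattern. -/
structure SamePat {k κ r : ℕ} (p q : Fin r → Idx k κ) : Prop where
  kd : ∀ i, kd (p i).2 = kd (q i).2
  ord : ∀ i j, ((p i).1 < (p j).1 ↔ (q i).1 < (q j).1)
  mem : ∀ i j, (p i).1 = (p j).1 → ∀ u u' v v' : ℕ × Fin κ, (p i).2 = .inr u →
    (p j).2 = .inr v → (q i).2 = .inr u' → (q j).2 = .inr v' → (u.1 < v.1 ↔ u'.1 < v'.1)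

/-- The place of the block `i`. -/
def st (S : ℕ → ℕ) (i : ℕ) : ℕ := i + ∑ j ∈ Finset.range i, S j

/-- The array with blocks of sizes `S` taken from the infinite array `x`, `v` along the numbers `n`. -/
def arr {α : Type} {k κ : ℕ} (x : ℕ → Fin k → α) (v : ℕ → ℕ → Fin κ → α) (S n : ℕ → ℕ)
    (p : Idx k κ) : α :=
  p.2.elim (fun b => x (n (st S p.1)) b) fun q => v (n (st S p.1)) (n (st S p.1 + 1 + q.1)) q.2

/-- RA: pattern invariant arrays. -/
def T_RA : Prop := ∀ (α K : Type) (_ : Finite K) (k κ r : ℕ) (x : ℕ → Fin k → α)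
  (v : ℕ → ℕ → Fin κ → α) (lab : (Fin r → α) → K) (S : ℕ → ℕ), ∃ n : ℕ → ℕ, StrictMono n ∧
    ∀ p q : Fin r → Idx k κ, (∀ i, p i ∈ V k κ S) → (∀ i, q i ∈ V k κ S) → SamePat p q →
      lab (fun i => arr x v S n (p i)) = lab fun i => arr x v S n (q i)

/-! ## Equal order patterns of numbers -/

lemma card_image_eq {ι : Type} (B : Finset ι) (f g : ι → ℕ)
    (h : ∀ a ∈ B, ∀ b ∈ B, (f a = f b ↔ g a = g b)) : (B.image f).card = (B.image g).card := by
  classical
  have key : ∀ f g : ι → ℕ, (∀ a ∈ B, ∀ b ∈ B, (f a = f b ↔ g a = g b)) →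
      (B.image f).card ≤ (B.image g).card := by
    intro f g h
    have hex : ∀ y : ℕ, ∃ w : ℕ, ∀ b ∈ B, g b = y → f b = w := by
      intro y
      by_cases hy : ∃ b ∈ B, g b = y
      · obtain ⟨b, hb, hby⟩ := hy
        refine ⟨f b, fun a ha hay => ?_⟩
        exact (h a ha b hb).2 (hay.trans hby.symm)
      · refine ⟨0, fun a ha hay => ?_⟩
        exact absurd ⟨a, ha, hay⟩ hy
    choose w hw using hex
    have h1 : B.image f ⊆ (B.image g).image w := by
      intro y hy
      obtain ⟨b, hb, rfl⟩ := Finset.mem_image.1 hy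
      refine Finset.mem_image.2 ⟨g b, Finset.mem_image.2 ⟨b, hb, rfl⟩, ?_⟩
      exact (hw _ b hb rfl).symm
    exact (Finset.card_le_card h1).trans Finset.card_image_le
  exact le_antisymm (key f g h) (key g f fun a ha b hb => (h a ha b hb).symm)

/-- Two functions to the numbers with the same order pattern factor through the same code. -/
theorem same_code {ι : Type} [Fintype ι] (f g : ι → ℕ) (h : ∀ a b, (f a < f b ↔ g a < g b))
    (d : ℕ) (hd : Fintype.card ι ≤ d) : ∃ (code : ι → Fin d) (c c' : Fin d → ℕ), StrictMono c ∧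
      StrictMono c' ∧ (∀ a, c (code a) = f a) ∧ ∀ a, c' (code a) = g a := by
  classical
  have heq : ∀ a b, (f a = f b ↔ g a = g b) := by
    intro a b
    have h1 := h a b
    have h2 := h b a
    constructor
    · intro hab
      by_contra hcon
      rcases lt_or_gt_of_ne hcon with h3 | h3
      · have := h1.2 h3
        omega
      · have := h2.2 h3
        omega
    · intro hab
      by_contra hcon
      rcases lt_or_gt_of_ne hcon with h3 | h3
      · have := h1.1 h3
        omega
      · have := h2.1 h3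
        omega
  -- counting the values below
  have count : ∀ f : ι → ℕ, ∃ F : ℕ → Prop, (Set.ofPred F).Infinite ∧ (∀ a, F (f a)) ∧
      ∀ a, ∃ _ : DecidablePred F, Nat.count F (f a) =
        ((Finset.univ.filter fun b => f b < f a).image f).card := by
    intro f
    let B := ∑ a, f a
    have hB : ∀ a, f a ≤ B := fun a =>
      Finset.single_le_sum (f := f) (fun _ _ => Nat.zero_le _) (Finset.mem_univ a)
    refine ⟨fun y => (∃ b, f b = y) ∨ B < y, ?_, fun a => Or.inl ⟨a, rfl⟩, fun a => ?_⟩
    · refine (Ioi_infinite B).mono ?_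
      intro y hy
      exact Or.inr hy
    · refine ⟨Classical.decPred _, ?_⟩
      rw [Nat.count_eq_card_filter_range]
      congr 1
      ext y
      simp only [Finset.mem_filter, Finset.mem_range, Finset.mem_image, Finset.mem_univ, true_and]
      constructor
      · rintro ⟨h1, ⟨b, rfl⟩ | h2⟩
        · exact ⟨b, h1, rfl⟩
        · have := hB a
          omega
      · rintro ⟨b, h1, rfl⟩
        exact ⟨h1, Or.inl ⟨b, rfl⟩⟩
  have cmap : ∀ f : ι → ℕ, ∃ c : Fin d → ℕ, StrictMono c ∧ ∀ a, ∀ hlt :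
      ((Finset.univ.filter fun b => f b < f a).image f).card < d, c ⟨_, hlt⟩ = f a := by
    intro f
    obtain ⟨F, hF, hFf, hcount⟩ := count f
    refine ⟨fun i => Nat.nth F i, fun i j hij => Nat.nth_strictMono hF hij, fun a hlt => ?_⟩
    obtain ⟨hdec, ha⟩ := hcount a
    have h3 : Nat.nth F (Nat.count F (f a)) = f a := Nat.nth_count (hFf a)
    rw [ha] at h3
    exact h3
  have hlt : ∀ (f : ι → ℕ) a, ((Finset.univ.filter fun b => f b < f a).image f).card < d := by
    intro f a
    refine lt_of_le_of_lt Finset.card_image_le (lt_of_lt_of_le ?_ hd)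
    refine Finset.card_lt_univ_of_notMem (x := a) ?_
    simp
  obtain ⟨c, hc, hc2⟩ := cmap f
  obtain ⟨c', hc', hc2'⟩ := cmap g
  refine ⟨fun a => ⟨_, hlt f a⟩, c, c', hc, hc', fun a => hc2 a _, fun a => ?_⟩
  have e1 : ((Finset.univ.filter fun b => f b < f a).image f).card =
      ((Finset.univ.filter fun b => g b < g a).image g).card := by
    rw [Finset.filter_congr fun b _ => h b a]
    exact card_image_eq _ f g fun a _ b _ => heq a b
  have e2 : (⟨_, hlt f a⟩ : Fin d) = ⟨_, hlt g a⟩ := Fin.ext e1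
  change c' ⟨_, hlt f a⟩ = g a
  rw [e2]
  exact hc2' a _

/-! ## The array -/

lemma st_succ (S : ℕ → ℕ) (i : ℕ) : st S (i + 1) = st S i + 1 + S i := by
  unfold st
  rw [Finset.sum_range_succ]
  ring

lemma st_mono (S : ℕ → ℕ) {i j : ℕ} (h : i < j) : st S i + 1 + S i ≤ st S j := by
  rw [← st_succ]
  have : StrictMono (st S) := strictMono_nat_of_lt_succ fun n => by
    rw [st_succ]
    omega
  exact this.monotone h

/-- The two numbers of a point. -/
def num {k κ : ℕ} (S : ℕ → ℕ) (p : Idx k κ) : Bool → ℕ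
  | true => st S p.1
  | false => p.2.elim (fun _ => st S p.1) fun q => st S p.1 + 1 + q.1

lemma num_bd {k κ : ℕ} (S : ℕ → ℕ) {p : Idx k κ} (hp : p ∈ V k κ S) (a : Bool) :
    st S p.1 ≤ num S p a ∧ num S p a < st S p.1 + 1 + S p.1 := by
  obtain ⟨i, w⟩ := p
  cases a
  · rcases w with b | q
    · simp only [num, Sum.elim_inl]
      omega
    · have hq : q.1 < S i := hp q rfl
      simp only [num, Sum.elim_inr]
      omega
  · simp only [num]
    omega

lemma num_lt {k κ r : ℕ} (S : ℕ → ℕ) (p q : Fin r → Idx k κ) (hp : ∀ i, p i ∈ V k κ S)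
    (hq : ∀ i, q i ∈ V k κ S) (h : SamePat p q) (i j : Fin r) (a b : Bool)
    (hlt : num S (p i) a < num S (p j) b) : num S (q i) a < num S (q j) b := by
  rcases lt_trichotomy (p i).1 (p j).1 with h1 | h1 | h1
  · have h2 := (h.ord i j).1 h1
    have h3 := st_mono S h2
    have h4 := (num_bd S (hq i) a).2
    have h5 := (num_bd S (hq j) b).1
    omega
  · have h2 : (q i).1 = (q j).1 := by
      have h3 := h.ord i j
      have h4 := h.ord j i
      omega
    have hk1 := h.kd i
    have hk2 := h.kd j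
    have hm := h.mem i j h1
    revert hlt hk1 hk2 hm
    generalize p i = pi at h1 ⊢
    generalize p j = pj at h1 ⊢
    generalize q i = qi at h2 ⊢
    generalize q j = qj at h2 ⊢
    obtain ⟨a1, w1⟩ := pi
    obtain ⟨a2, w2⟩ := pj
    obtain ⟨a3, w3⟩ := qi
    obtain ⟨a4, w4⟩ := qj
    simp only at h1 h2
    subst h1 h2
    intro hlt hk1 hk2 hm
    rcases w1 with w1 | w1 <;> rcases w2 with w2 | w2 <;> rcases w3 with w3 | w3 <;>
      rcases w4 with w4 | w4 <;> cases a <;> cases b <;>
      simp only [num, Sum.elim_inl, Sum.elim_inr, kd, reduceCtorEq] at hlt hk1 hk2 ⊢ <;>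
      first
      | omega
      | (have := hm w1 w3 w2 w4 rfl rfl rfl rfl
         omega)
  · have h2 := st_mono S h1
    have h3 := (num_bd S (hp i) a).1
    have h4 := (num_bd S (hp j) b).2
    omega

lemma samePat_symm {k κ r : ℕ} {p q : Fin r → Idx k κ} (h : SamePat p q) : SamePat q p := by
  refine ⟨fun i => (h.kd i).symm, fun i j => (h.ord i j).symm, ?_⟩
  intro i j hij u u' v v' h1 h2 h3 h4
  refine (h.mem i j ?_ u' u v' v h3 h4 h1 h2).symm
  have h3 := h.ord i j
  have h4 := h.ord j i
  omega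

/-- RA holds. -/
theorem pf_RA : T_RA := by
  classical
  intro α K hK k κ r x v lab S
  -- the colouring
  let Code := Fin r → (Fin (r * 2) × Fin (r * 2)) × (Fin k ⊕ Fin κ)
  let pnt : (Fin (r * 2) → ℕ) → (Fin (r * 2) × Fin (r * 2)) × (Fin k ⊕ Fin κ) → α :=
    fun c w => w.2.elim (fun b => x (c w.1.1) b) fun a => v (c w.1.1) (c w.1.2) a
  let col : (Fin (r * 2) → ℕ) → (Code → K) := fun c code => lab fun i => pnt c (code i)
  obtain ⟨n, hn, v0, hv0⟩ := ram_aux (Code → K) (r * 2) col
  refine ⟨n, hn, fun p q hp hq hpq => ?_⟩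
  obtain ⟨code, c, c', hc, hc', h1, h2⟩ := same_code (ι := Fin r × Bool)
    (fun w => num S (p w.1) w.2) (fun w => num S (q w.1) w.2)
    (fun a b => ⟨fun h => num_lt S p q hp hq hpq _ _ _ _ h,
      fun h => num_lt S q p hq hp (samePat_symm hpq) _ _ _ _ h⟩) (r * 2) (by simp)
  have key : ∀ (p : Fin r → Idx k κ) (c : Fin (r * 2) → ℕ), StrictMono c →
      (∀ i, p i ∈ V k κ S) → (∀ a : Fin r × Bool, c (code a) = num S (p a.1) a.2) →
      lab (fun i => arr x v S n (p i)) =
        v0 fun i => ((code (i, true), code (i, false)), kd (p i).2) := by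
    intro p c hc hp h
    rw [← hv0 c hc]
    change _ = lab _
    congr 1
    funext i
    have e1 := h (i, true)
    have e2 := h (i, false)
    simp only at e1 e2
    change arr x v S n (p i) = (kd (p i).2).elim (fun b => x (n (c (code (i, true)))) b)
      fun a => v (n (c (code (i, true)))) (n (c (code (i, false)))) a
    generalize p i = pi at e1 e2 ⊢
    obtain ⟨i0, w⟩ := pi
    rcases w with w | w
    · change x (n (st S i0)) w = x (n (c (code (i, true)))) w
      rw [e1]
      rfl
    · change v (n (st S i0)) (n (st S i0 + 1 + w.1)) w.2 =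
        v (n (c (code (i, true)))) (n (c (code (i, false)))) w.2
      rw [e1, e2]
      rfl
  rw [key p c hc hp h1, key q c' hc' hq h2]
  congr 1
  funext i
  rw [hpq.kd i]

end Pool.Agent.H75.HCI
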