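import Pool.Agent.H75.HCI.Small
import Pool.Agent.H75.HCI.RA

/-!
# Finitely many labels

A structure with few substructures has finitely many labels of lists of length `r`.
-/

set_option autoImplicit false

namespace Pool.Agent.H75.HCI

open Set

variable {α L : Type} {t : List α → L} {N : Set α}

/-- The free set theorem: on an infinite set the label of the tuple `l n` is not the label of a tuple of
points of other tuples. -/
theorem free_set (r : ℕ) (l : ℕ → Fin r → α) (hl : ∀ n m, n ≠ m →
    t (List.ofFn (l n)) ≠ t (List.ofFn (l m))) : ∃ h : ℕ → ℕ, StrictMono h ∧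
    ∀ (n : ℕ) (i : Fin r → ℕ) (a : Fin r → Fin r), (∀ b, i b ≠ n) →
      t (List.ofFn fun b => l (h (i b)) (a b)) ≠ t (List.ofFn (l (h n))) := by
  classical
  let Cd := Fin (r + 1) × (Fin r → Fin (r + 1) × Fin r)
  let col : (Fin (r + 1) → ℕ) → (Cd → Prop) := fun c w =>
    (∀ b, (w.2 b).1 ≠ w.1) ∧ t (List.ofFn fun b => l (c (w.2 b).1) (w.2 b).2) =
      t (List.ofFn (l (c w.1)))
  obtain ⟨h, hh, v, hv⟩ := ram_aux (Cd → Prop) (r + 1) col
  refine ⟨fun n => h (2 * n), fun n m hnm => hh (by omega), fun n i a hi heq => ?_⟩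
  obtain ⟨code, c, c', hc, hc', h1, h2⟩ := same_code (ι := Option (Fin r))
    (fun w => w.elim n i) (fun w => w.elim n i) (fun _ _ => Iff.rfl) (r + 1) (by simp)
  set j := code none with hj
  have hcj : c j = n := h1 none
  have hci : ∀ b, c (code (some b)) = i b := fun b => h1 (some b)
  have hne : ∀ b, code (some b) ≠ j := by
    intro b hb
    apply hi b
    rw [← hci b, hb, hcj]
  -- the two tuples
  have hs1 : StrictMono fun a : Fin (r + 1) => 2 * c a := fun a b hab => by
    have := hc hab
    change 2 * c a < 2 * c b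
    omega
  have hs2 : StrictMono fun a : Fin (r + 1) => if a = j then 2 * c a + 1 else 2 * c a := by
    intro a b hab
    have := hc hab
    change (if a = j then 2 * c a + 1 else 2 * c a) < if b = j then 2 * c b + 1 else 2 * c b
    split_ifs <;> omega
  have e1 := hv _ hs1
  have e2 := hv _ hs2
  let w : Cd := (j, fun b => (code (some b), a b))
  have p1 : col (h ∘ fun a => 2 * c a) w := by
    refine ⟨hne, ?_⟩
    have e3 : (fun b => l ((h ∘ fun a => 2 * c a) (w.2 b).1) (w.2 b).2) =
        fun b => l (h (2 * i b)) (a b) := by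
      funext b
      change l (h (2 * c (code (some b)))) (a b) = _
      rw [hci b]
    have e4 : l ((h ∘ fun a => 2 * c a) w.1) = l (h (2 * n)) := by
      change l (h (2 * c j)) = _
      rw [hcj]
    rw [e3, e4]
    exact heq
  have p2 : col (h ∘ fun a => if a = j then 2 * c a + 1 else 2 * c a) w := by
    rw [e2, ← e1]
    exact p1
  obtain ⟨-, q2⟩ := p2
  have e3 : (fun b => l ((h ∘ fun a => if a = j then 2 * c a + 1 else 2 * c a) (w.2 b).1)
      (w.2 b).2) = fun b => l (h (2 * i b)) (a b) := by
    funext b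
    change l (h (if code (some b) = j then _ else 2 * c (code (some b)))) (a b) = _
    rw [if_neg (hne b), hci b]
  have e4 : l ((h ∘ fun a => if a = j then 2 * c a + 1 else 2 * c a) w.1) =
      l (h (2 * n + 1)) := by
    change l (h (if j = j then 2 * c j + 1 else _)) = _
    rw [if_pos rfl, hcj]
  rw [e3, e4, heq] at q2
  refine hl (h (2 * n)) (h (2 * n + 1)) (fun hcon => ?_) q2
  have := hh.injective hcon
  omega

/-- Finitely many labels. -/
theorem fin_labels (hs : SmallE t (id : α → α) N) (r : ℕ) :
    {y | ∃ l : List α, l.length = r ∧ (∀ x ∈ l, x ∈ N) ∧ t l = y}.Finite := by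
  classical
  by_contra hcon
  have hinf : {y | ∃ l : List α, l.length = r ∧ (∀ x ∈ l, x ∈ N) ∧ t l = y}.Infinite := hcon
  let em := hinf.natEmbedding
  have hex : ∀ n, ∃ f : Fin r → α, (∀ b, f b ∈ N) ∧ t (List.ofFn f) = (em n : L) := by
    intro n
    obtain ⟨l, h1, h2, h3⟩ := (em n).2
    subst h1
    refine ⟨l.get, fun b => h2 _ (l.get_mem b), ?_⟩
    rw [List.ofFn_get]
    exact h3
  choose l hlN hlt using hex
  have hl : ∀ n m, n ≠ m → t (List.ofFn (l n)) ≠ t (List.ofFn (l m)) := by
    intro n m hnm h
    rw [hlt, hlt] at h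
    exact hnm (em.injective (Subtype.ext h))
  obtain ⟨h, hh, hfree⟩ := free_set r l hl
  let A : (ℕ → Bool) → Set α := fun c => {x | ∃ n ∈ br c, ∃ b, l (h n) b = x}
  have hmeas : ∀ x, MeasurableSet {c | x ∈ A c} := by
    intro x
    have h1 : {c | x ∈ A c} = ⋃ n ∈ {n | ∃ b, l (h n) b = x}, {c | n ∈ br c} := by
      ext c
      simp only [A, mem_ofPred_eq, mem_iUnion, exists_prop]
      constructor
      · rintro ⟨n, h1, h2⟩
        exact ⟨n, h2, h1⟩
      · rintro ⟨n, h2, h1⟩
        exact ⟨n, h1, h2⟩
    rw [h1]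
    exact MeasurableSet.biUnion (to_countable _) fun n _ => br_measurable n
  have hmem : ∀ c, ∀ n ∈ br c, ∀ b, l (h n) b ∈ A c := fun c n hn b => ⟨n, hn, b, rfl⟩
  have hAinf : ∀ c, (A c).Infinite := by
    intro c hfin
    have h1 : (range fun n : br c => t (List.ofFn (l (h n)))).Finite := by
      have h2 : Set.Finite {f : Fin r → α | ∀ b, f b ∈ A c} := by
        have := Set.Finite.pi' (ι := Fin r) (t := fun _ => A c) fun _ => hfin
        exact this
      refine (h2.image fun f => t (List.ofFn f)).subset ?_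
      rintro _ ⟨n, rfl⟩
      exact ⟨l (h n), fun b => hmem c n n.2 b, rfl⟩
    have h2 : Function.Injective fun n : br c => t (List.ofFn (l (h n))) := by
      intro n m hnm
      by_contra hne
      refine hl (h n) (h m) (fun hcon => ?_) hnm
      exact hne (Subtype.ext (hh.injective hcon))
    have h3 := Set.finite_range_iff h2 |>.1 h1
    exact br_infinite c (Set.finite_coe_iff.1 h3)
  obtain ⟨c, c', hcc, g, hg, him, -⟩ := hs A [] hmeas hAinf
    (fun c x hx => by
      obtain ⟨n, -, b, rfl⟩ := hx
      exact hlN _ _)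
    (fun c x hx y _ hxy => by
      have hxy' : y = x := hxy
      rw [hxy']
      exact hx) (fun c x hx => by simp at hx)
  -- the two branches are equal
  have hsub : br c ⊆ br c' := by
    intro n hn
    by_contra hn'
    have h1 : ∀ b, ∃ m ∈ br c', ∃ a, l (h m) a = g (l (h n) b) := by
      intro b
      have : g (l (h n) b) ∈ A c' := by
        rw [← him]
        exact ⟨_, hmem c n hn b, rfl⟩
      exact this
    choose i hi a ha using h1
    refine hfree n i a (fun b hb => hn' (hb ▸ hi b)) ?_
    have e1 : (fun b => l (h (i b)) (a b)) = g ∘ l (h n) := funext ha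
    rw [e1, ← List.map_ofFn]
    refine hg.lab _ fun x hx => ?_
    rw [List.mem_ofFn] at hx
    obtain ⟨b, rfl⟩ := hx
    exact hmem c n hn b
  have h1 : (br c).Finite := (br_inter hcc).subset fun n hn => ⟨hn, hsub hn⟩
  exact br_infinite c h1

end Pool.Agent.H75.HCI
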