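import Pool.Agent.H75.HCI.SP

/-!
# Arrays: pattern preserving maps, blocks are s-parts, shifts
-/

set_option autoImplicit false

namespace Pool.Agent.H75.HCI

open Set

section

variable {k κ : ℕ} {L : Type} {cl : Fin k → Fin k} {T : List (Idx k κ) → L}

lemma pat_fst {h : Idx k κ → Idx k κ} {A : Set (Idx k κ)} (hp : PatOn h A) {p q : Idx k κ}
    (hpA : p ∈ A) (hqA : q ∈ A) : (h p).1 = (h q).1 ↔ p.1 = q.1 := by
  have h1 := hp.ord p hpA q hqA
  have h2 := hp.ord q hqA p hpA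
  omega

/-- Pattern preserving maps are embeddings. -/
theorem emb_of_pat (hT : PatInv T) {h : Idx k κ → Idx k κ} {A : Set (Idx k κ)}
    (hp : PatOn h A) : Emb T (ec cl) T (ec cl) h A := by
  have hkd := hp.kd
  have hcls : ∀ p ∈ A, ∀ q ∈ A, (ec cl (h p) = ec cl (h q) ↔ ec cl p = ec cl q) := by
    intro p hpA q hqA
    have h1 := pat_fst hp hpA hqA
    have kp := hkd p hpA
    have kq := hkd q hqA
    have hm := hp.mem p hpA q hqA
    have hm' := hp.mem q hqA p hpA
    obtain ⟨i, zp⟩ := p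
    obtain ⟨j, zq⟩ := q
    simp only [ec, Prod.mk.injEq] at h1 ⊢
    rw [h1]
    refine and_congr_right fun hij => ?_
    subst hij
    rcases hz : (h (i, zp)).2 with b | u <;> rcases hz' : (h (i, zq)).2 with b' | u' <;>
      rcases zp with c | v <;> rcases zq with c' | v' <;>
      simp only [hz, hz', kd, Sum.elim_inl, Sum.elim_inr, Sum.inl.injEq, Sum.inr.injEq,
        reduceCtorEq] at kp kq ⊢
    · rw [kp, kq]
    · have h3 := hm rfl v u v' u' rfl rfl hz hz'
      have h4 := hm' rfl v' u' v u rfl rfl hz' hz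
      omega
  refine ⟨fun p hpA q hqA hpq => ?_, hT h A hp, hcls⟩
  have h1 := (pat_fst hp hpA hqA).1 (by rw [hpq])
  have kp := hkd p hpA
  have kq := hkd q hqA
  have h2 := (hcls p hpA q hqA).1 (by rw [hpq])
  rw [hpq, kq] at kp
  obtain ⟨i, zp⟩ := p
  obtain ⟨j, zq⟩ := q
  simp only [ec, Prod.mk.injEq] at h1 h2 ⊢
  refine ⟨h1, ?_⟩
  rcases zp with c | v <;> rcases zq with c' | v' <;>
    simp only [kd, Sum.elim_inl, Sum.elim_inr, Sum.inl.injEq, Sum.inr.injEq,
      reduceCtorEq] at kp h2 ⊢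
  · exact kp.symm
  · exact Prod.ext h2.2 kp.symm

/-- The shift of the first coordinates. -/
def sh (φ : ℕ → ℕ) (p : Idx k κ) : Idx k κ := (φ p.1, p.2)

lemma pat_sh {φ : ℕ → ℕ} (hφ : StrictMono φ) (A : Set (Idx k κ)) : PatOn (sh φ) A := by
  refine ⟨fun _ _ => rfl, fun p _ q _ => hφ.lt_iff_lt, ?_⟩
  intro p _ q _ _ u u' v v' h1 h2 h3 h4
  have h3' : p.2 = .inr u' := h3
  have h4' : q.2 = .inr v' := h4
  rw [h1, Sum.inr.injEq] at h3'
  rw [h2, Sum.inr.injEq] at h4'
  rw [h3', h4']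

lemma sh_full {φ : ℕ → ℕ} {s s' : ℕ → ℕ} (x y : Idx k κ) (hy : y ∈ V k κ s')
    (hxy : ec cl y = ec cl (sh φ x)) (hs : ∀ q : ℕ × Fin κ, x.2 = .inr q → q.1 < s x.1) :
    ∃ x' ∈ V k κ s, sh φ x' = y ∧ x'.1 = x.1 := by
  obtain ⟨i, zx⟩ := x
  obtain ⟨j, zy⟩ := y
  simp only [ec, sh, Prod.mk.injEq] at hxy
  obtain ⟨rfl, h2⟩ := hxy
  refine ⟨(i, zy), ?_, rfl, rfl⟩
  intro q hq
  dsimp only at hq
  subst hq
  rcases zx with c | v
  · simp only [Sum.elim_inl, Sum.elim_inr, reduceCtorEq] at h2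
  · simp only [Sum.elim_inr, Sum.inr.injEq] at h2
    rw [h2]
    exact hs v rfl

/-- Order isomorphisms between finite sets of the same size. -/
lemma exists_theta (M1 M2 : Finset ℕ) (h : M1.card = M2.card) :
    ∃ θ : ℕ → ℕ, StrictMonoOn θ M1 ∧ θ '' M1 = M2 := by
  classical
  let e := (M1.orderIsoOfFin rfl).symm.trans (M2.orderIsoOfFin h.symm)
  refine ⟨fun m => if hm : m ∈ M1 then (e ⟨m, hm⟩ : ℕ) else m, ?_, ?_⟩
  · intro a ha b hb hab
    have ha' : a ∈ M1 := ha
    have hb' : b ∈ M1 := hb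
    simp only [ha', hb', dif_pos]
    exact e.lt_iff_lt.2 (show (⟨a, ha'⟩ : M1) < ⟨b, hb'⟩ from hab)
  · ext y
    rw [mem_image]
    refine ⟨?_, fun hy => ?_⟩
    · rintro ⟨x, hx, rfl⟩
      have hx' : x ∈ M1 := hx
      simp only [hx', dif_pos]
      exact (e ⟨x, hx'⟩).2
    · have hy' : y ∈ M2 := hy
      obtain ⟨x, hx⟩ := e.surjective ⟨y, hy'⟩
      refine ⟨x.1, x.2, ?_⟩
      have hx2 : (x : ℕ) ∈ M1 := x.2
      simp only [hx2, dif_pos]
      rw [show (⟨(x : ℕ), hx2⟩ : M1) = x from rfl, hx]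

/-- Blocks are s-parts. -/
theorem spart_block (hκ : 1 ≤ κ) (hT : PatInv T) (s : ℕ → ℕ) (i : ℕ) :
    SPart T (ec cl) (V k κ s) {q | ∃ m < s i, q = (i, .inr m)} := by
  classical
  refine ⟨?_, fun C D1 D2 hC h1 h2 hcard => ?_⟩
  · rintro q ⟨m, hm, rfl⟩
    refine ⟨(i, .inr (m, ⟨0, hκ⟩)), ?_, rfl⟩
    intro q hq
    simp only [Sum.inr.injEq] at hq
    rw [← hq]
    exact hm
  · set pm : ℕ × (Fin k ⊕ ℕ) → ℕ := fun q => q.2.elim (fun _ => 0) id with hpm
    have hinj : ∀ D : Finset (ℕ × (Fin k ⊕ ℕ)), (∀ d ∈ D, ∃ m < s i, d = (i, .inr m)) →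
        (D.image pm).card = D.card := by
      intro D hD
      refine Finset.card_image_of_injOn fun a ha b hb hab => ?_
      obtain ⟨m, _, rfl⟩ := hD a ha
      obtain ⟨m', _, rfl⟩ := hD b hb
      simp only [hpm, Sum.elim_inr, id] at hab
      rw [hab]
    have hmem : ∀ D : Finset (ℕ × (Fin k ⊕ ℕ)), (∀ d ∈ D, ∃ m < s i, d = (i, .inr m)) →
        ∀ m, (m ∈ D.image pm ↔ ((i, .inr m) : ℕ × (Fin k ⊕ ℕ)) ∈ D) := by
      intro D hD m
      rw [Finset.mem_image]
      refine ⟨?_, fun h => ⟨_, h, rfl⟩⟩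
      rintro ⟨d, hd, rfl⟩
      obtain ⟨m, _, rfl⟩ := hD d hd
      exact hd
    obtain ⟨θ, hθ1, hθ2⟩ := exists_theta (D1.image pm) (D2.image pm)
      (by rw [hinj D1 h1, hinj D2 h2, hcard])
    -- the map
    set h : Idx k κ → Idx k κ := fun p =>
      if ec cl p ∈ D1 then (p.1, p.2.map id fun q => (θ q.1, q.2)) else p with hh
    have hD1 : ∀ p : Idx k κ, ec cl p ∈ D1 → ∃ m c, p = (i, .inr (m, c)) ∧ m ∈ D1.image pm := by
      intro p hp
      obtain ⟨m, _, hm⟩ := h1 _ hp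
      obtain ⟨j, z⟩ := p
      simp only [ec, Prod.mk.injEq] at hm
      obtain ⟨rfl, hm⟩ := hm
      rcases z with b | u
      · simp at hm
      · simp only [Sum.elim_inr, Sum.inr.injEq] at hm
        refine ⟨u.1, u.2, rfl, ?_⟩
        rw [hmem D1 h1]
        exact hp
    have hcases : ∀ p ∈ Pt (ec cl) (V k κ s) ((C : Set (ℕ × (Fin k ⊕ ℕ))) ∪ D1), p.1 = i →
        (∃ u, p.2 = .inr u) → ec cl p ∈ D1 := by
      rintro p ⟨hpV, hpC | hpD⟩ hpi ⟨u, hu⟩
      · refine absurd ⟨u.1, ?_, ?_⟩ (hC _ hpC)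
        · rw [← hpi]; exact hpV u hu
        · obtain ⟨j, z⟩ := p
          dsimp only at hpi hu
          subst hpi hu
          rfl
      · exact hpD
    have hpat : PatOn h (Pt (ec cl) (V k κ s) ((C : Set (ℕ × (Fin k ⊕ ℕ))) ∪ D1)) := by
      refine ⟨fun p hp => ?_, fun p hp q hq => ?_, ?_⟩
      · simp only [hh]
        split_ifs with hpD
        · obtain ⟨m, c, rfl, _⟩ := hD1 p hpD
          rfl
        · rfl
      · have h3 : ∀ p, (h p).1 = p.1 := by
          intro p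
          simp only [hh]
          split_ifs <;> rfl
        rw [h3, h3]
      · intro p hp q hq hpq u u' v v' e1 e2 e3 e4
        by_cases hpi : p.1 = i
        · have hp' := hcases p hp hpi ⟨u, e1⟩
          have hq' := hcases q hq (hpq ▸ hpi) ⟨v, e2⟩
          obtain ⟨m, c, rfl, hm⟩ := hD1 p hp'
          obtain ⟨m', c', rfl, hm'⟩ := hD1 q hq'
          simp only [Sum.inr.injEq] at e1 e2
          subst e1 e2
          simp only [hh, if_pos hp', if_pos hq', Sum.map_inr, Sum.inr.injEq] at e3 e4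
          rw [← e3, ← e4]
          exact hθ1.lt_iff_lt hm hm'
        · have hp' : ec cl p ∉ D1 := fun hD => by
            obtain ⟨m, c, rfl, _⟩ := hD1 p hD
            exact hpi rfl
          have hq' : ec cl q ∉ D1 := fun hD => by
            obtain ⟨m, c, rfl, _⟩ := hD1 q hD
            exact hpi hpq
          simp only [hh, if_neg hp', if_neg hq'] at e3 e4
          rw [e1, Sum.inr.injEq] at e3
          rw [e2, Sum.inr.injEq] at e4
          rw [e3, e4]
    refine ⟨h, emb_of_pat hT hpat, ?_, fun x hx => ?_⟩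
    · ext y
      rw [mem_image]
      refine ⟨?_, fun hy => ?_⟩
      · rintro ⟨x, hx, rfl⟩
        obtain ⟨m, c, rfl, hm⟩ := hD1 x hx.2
        have hθm : θ m ∈ D2.image pm := by
          have : θ m ∈ θ '' (D1.image pm : Finset ℕ) := ⟨m, hm, rfl⟩
          rw [hθ2] at this
          exact this
        have hxD : ec cl ((i, .inr (m, c)) : Idx k κ) ∈ D1 := hx.2
        simp only [hh, if_pos hxD, Sum.map_inr]
        have h3 := (hmem D2 h2 _).1 hθm
        refine ⟨fun q hq => ?_, h3⟩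
        simp only [Sum.inr.injEq] at hq
        subst hq
        obtain ⟨m', hm', h4⟩ := h2 _ h3
        simp only [Prod.mk.injEq, Sum.inr.injEq, true_and] at h4
        change θ m < s i
        rw [h4]
        exact hm'
      · obtain ⟨m, hm, h3⟩ := h2 _ hy.2
        obtain ⟨j, z⟩ := y
        simp only [ec, Prod.mk.injEq] at h3
        obtain ⟨rfl, h3⟩ := h3
        rcases z with b | u
        · simp at h3
        · simp only [Sum.elim_inr, Sum.inr.injEq] at h3
          have h4 : u.1 ∈ D2.image pm := (hmem D2 h2 _).2 hy.2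
          have h5 : u.1 ∈ θ '' (D1.image pm : Finset ℕ) := by rw [hθ2]; exact h4
          obtain ⟨m1, hm1, h6⟩ := h5
          have h7 := (hmem D1 h1 _).1 hm1
          have hxD : ec cl ((j, .inr (m1, u.2)) : Idx k κ) ∈ D1 := h7
          refine ⟨(j, .inr (m1, u.2)), ⟨fun q hq => ?_, h7⟩, ?_⟩
          · simp only [Sum.inr.injEq] at hq
            subst hq
            obtain ⟨m', hm', h8⟩ := h1 _ h7
            simp only [Prod.mk.injEq, Sum.inr.injEq, true_and] at h8
            change m1 < s j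
            rw [h8]
            exact hm'
          · simp only [hh, if_pos hxD, Sum.map_inr]
            rw [h6]
    · have hxD : ec cl x ∉ D1 := fun hD => hC _ hx.2 (h1 _ hD)
      simp only [hh, if_neg hxD]

end

end Pool.Agent.H75.HCI
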