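import Mathlib

/-!
# Structures of any arity with finite classes: s-parts and arrays

A structure on `α` is a label function `t : List α → L` for the tuples (of all lengths); the points come in
classes, `e : α → β` is the class map. Substructures are the sets `Pt e N P` (all points of `N` whose class
is in `P`).
-/

set_option autoImplicit false

namespace Pool.Agent.H75.HCI

open Set

/-- `f` preserves the labels and the classes of the points of `A`. -/
structure Emb {α α' β β' L : Type} (t : List α → L) (e : α → β) (t' : List α' → L) (e' : α' → β')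
    (f : α → α') (A : Set α) : Prop where
  inj : InjOn f A
  lab : ∀ l : List α, (∀ x ∈ l, x ∈ A) → t' (l.map f) = t l
  cls : ∀ x ∈ A, ∀ y ∈ A, (e' (f x) = e' (f y) ↔ e x = e y)

/-- The points of `N` whose class is in `P`. -/
def Pt {α β : Type} (e : α → β) (N : Set α) (P : Set β) : Set α := {x | x ∈ N ∧ e x ∈ P}

/-- The union of the classes in `D1` can be mapped onto the union of the classes in `D2` over the classes
in `C`. -/
def Mv {α β L : Type} (t : List α → L) (e : α → β) (N : Set α) (C D1 D2 : Set β) : Prop :=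
  ∃ f : α → α, Emb t e t e f (Pt e N (C ∪ D1)) ∧ f '' Pt e N D1 = Pt e N D2 ∧
    ∀ x ∈ Pt e N C, f x = x

/-- The set `B` of classes is an s-part of `N`: all unions of `n` classes in `B` are isomorphic over every
finite set of classes outside `B`. -/
structure SPart {α β L : Type} (t : List α → L) (e : α → β) (N : Set α) (B : Set β) : Prop where
  sub : B ⊆ e '' N
  hom : ∀ C D1 D2 : Finset β, (∀ c ∈ C, c ∉ B) → (∀ d ∈ D1, d ∈ B) → (∀ d ∈ D2, d ∈ B) →
    D1.card = D2.card → Mv t e N C D1 D2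

/-- Two classes belong to a common s-part. -/
def Eqv {α β L : Type} (t : List α → L) (e : α → β) (N : Set α) (x y : β) : Prop :=
  ∃ B, SPart t e N B ∧ x ∈ B ∧ y ∈ B

/-! ## Arrays -/

/-- The points of an array: `(i, inl b)` is the coordinate `b` of the tuple `x i`, `(i, inr (m, c))` is the
coordinate `c` of the member `m` of the block `i`. -/
abbrev Idx (k κ : ℕ) : Type := ℕ × (Fin k ⊕ ℕ × Fin κ)

/-- The classes of an array; `cl` gives the classes of the coordinates of `x i`. -/
def ec {k κ : ℕ} (cl : Fin k → Fin k) (p : Idx k κ) : ℕ × (Fin k ⊕ ℕ) :=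
  (p.1, p.2.elim (fun b => .inl (cl b)) fun q => .inr q.1)

/-- The part of the array where the block `i` has `s i` members. -/
def V (k κ : ℕ) (s : ℕ → ℕ) : Set (Idx k κ) := {p | ∀ q, p.2 = .inr q → q.1 < s p.1}

/-- The kind of a point. -/
def kd {k κ : ℕ} (z : Fin k ⊕ ℕ × Fin κ) : Fin k ⊕ Fin κ := z.elim .inl fun q => .inr q.2

/-- The map `h` preserves the pattern of the points in `A`. -/
structure PatOn {k κ : ℕ} (h : Idx k κ → Idx k κ) (A : Set (Idx k κ)) : Prop where
  kd : ∀ p ∈ A, kd (h p).2 = kd p.2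
  ord : ∀ p ∈ A, ∀ q ∈ A, ((h p).1 < (h q).1 ↔ p.1 < q.1)
  mem : ∀ p ∈ A, ∀ q ∈ A, p.1 = q.1 → ∀ u u' v v' : ℕ × Fin κ, p.2 = .inr u → q.2 = .inr v →
    (h p).2 = .inr u' → (h q).2 = .inr v' → (u'.1 < v'.1 ↔ u.1 < v.1)

/-- The labels depend only on the pattern. -/
def PatInv {k κ : ℕ} {L : Type} (T : List (Idx k κ) → L) : Prop :=
  ∀ (h : Idx k κ → Idx k κ) (A : Set (Idx k κ)), PatOn h A →
    ∀ l : List (Idx k κ), (∀ x ∈ l, x ∈ A) → T (l.map h) = T l

/-- The size functions grow so fast that the blocks of the first array are visible in the second one. -/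
def Fast (k : ℕ) (s s' : ℕ → ℕ) : Prop :=
  ∀ᶠ i in Filter.atTop, ∃ J, (∀ j, J ≤ j → s i + k < s' j) ∧
    k + ∑ j ∈ Finset.range J, (s' j + k) < s i

/-- GP: the growing blocks lemma. -/
def T_GP : Prop := ∀ (k κ : ℕ) (L : Type) (cl : Fin k → Fin k) (T : List (Idx k κ) → L)
  (s s' : ℕ → ℕ) (g : Idx k κ → Idx k κ), 1 ≤ κ → PatInv T → StrictMono s → StrictMono s' →
  (∀ i, 1 ≤ s i) → Fast k s s' → Emb T (ec cl) T (ec cl) g (V k κ s) →
  g '' V k κ s = V k κ s' →
  ∃ In : Set (Fin k), In ⊆ range cl ∧ SPart T (ec cl) (univ : Set (Idx k κ))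
    {q : ℕ × (Fin k ⊕ ℕ) | ∀ β, q.2 = .inl β → β ∈ In}

end Pool.Agent.H75.HCI
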