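import Pool.Agent.H75.HCI.Small

/-!
# Full labels of lists
-/

set_option autoImplicit false

namespace Pool.Agent.H75.HCI

open Set

variable {α β L : Type}

/-- The list of the members of `l` with the places `w`. -/
def sel (l : List α) (w : List ℕ) : List α := w.filterMap fun i => l[i]?

/-- The labels of all tuples from a list. -/
def ft (t : List α → L) (l : List α) : List ℕ → L := fun w => t (sel l w)

/-- The full label of a list is determined by the labels of at most `r` members. -/
def Loc (r : ℕ) (t : List α → L) : Prop := ∀ l l' : List α, l.length = l'.length →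
  (∀ w : List ℕ, w.length ≤ r → ft t l w = ft t l' w) → ft t l = ft t l'

lemma sel_map (f : α → β) (l : List α) (w : List ℕ) : sel (l.map f) w = (sel l w).map f := by
  unfold sel
  rw [List.map_filterMap]
  congr 1
  funext i
  rw [List.getElem?_map]

lemma sel_mem {l : List α} {w : List ℕ} {x : α} (h : x ∈ sel l w) : x ∈ l := by
  unfold sel at h
  rw [List.mem_filterMap] at h
  obtain ⟨i, -, hi⟩ := h
  exact List.mem_of_getElem? hi

lemma sel_eq (l : List α) (w : List ℕ) (hw : ∀ i ∈ w, i < l.length) :
    sel l w = List.ofFn fun j : Fin w.length => l.get ⟨w.get j, hw _ (w.get_mem j)⟩ := by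
  induction w with
  | nil => rfl
  | cons a w ih =>
    have ha : a < l.length := hw a (List.mem_cons_self ..)
    have h1 := ih fun i hi => hw i (List.mem_cons_of_mem _ hi)
    unfold sel at h1 ⊢
    rw [List.filterMap_cons, List.getElem?_eq_getElem ha]
    change l[a] :: _ = _
    rw [h1]
    change _ = List.ofFn (n := w.length + 1) _
    rw [List.ofFn_succ]
    rfl

lemma sel_range (l : List α) : sel l (List.range l.length) = l := by
  rw [sel_eq l _ fun i hi => List.mem_range.1 hi]
  refine List.ext_getElem (by simp) fun i h1 h2 => ?_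
  simp

lemma sel_filter (l : List α) (w : List ℕ) (n : ℕ) (hn : l.length = n) :
    sel l (w.filter fun i => decide (i < n)) = sel l w := by
  subst hn
  unfold sel
  induction w with
  | nil => rfl
  | cons a w ih =>
    rw [List.filter_cons]
    by_cases ha : a < l.length
    · simp only [ha, decide_true, if_true, List.filterMap_cons]
      rw [ih]
    · have h1 : l[a]? = none := List.getElem?_eq_none (not_lt.1 ha)
      simp only [ha, decide_false, List.filterMap_cons, h1]
      exact ih

lemma ft_range (t : List α → L) (l : List α) : ft t l (List.range l.length) = t l := by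
  unfold ft
  rw [sel_range]

lemma emb_ft {α' β' : Type} {t : List α → L} {e : α → β} {t' : List α' → L} {e' : α' → β'}
    {f : α → α'} {A : Set α} : Emb (ft t) e (ft t') e' f A ↔ Emb t e t' e' f A := by
  constructor
  · rintro ⟨h1, h2, h3⟩
    refine ⟨h1, fun l hl => ?_, h3⟩
    have h4 := congrFun (h2 l hl) (List.range l.length)
    have h5 : ft t' (l.map f) (List.range (l.map f).length) = t' (l.map f) := ft_range _ _
    rw [List.length_map] at h5
    rw [← h5, h4, ft_range]
  · rintro ⟨h1, h2, h3⟩
    refine ⟨h1, fun l hl => ?_, h3⟩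
    funext w
    unfold ft
    rw [sel_map]
    exact h2 _ fun x hx => hl x (sel_mem hx)

lemma small_ft {t : List α → L} {e : α → β} {N : Set α} (h : SmallE t e N) :
    SmallE (ft t) e N := by
  intro A z h1 h2 h3 h4 h5
  obtain ⟨K, K', h6, g, hg, h7⟩ := h A z h1 h2 h3 h4 h5
  exact ⟨K, K', h6, g, emb_ft.2 hg, h7⟩

lemma loc_mono {r r' : ℕ} (hrr : r ≤ r') {t : List α → L} (h : Loc r t) : Loc r' t :=
  fun l l' hl hw => h l l' hl fun w hw' => hw w (hw'.trans hrr)

/-- If the structure is canonical then few substructures imply few unions of classes. -/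
lemma small_id {t : List α → L} {e : α → β} {N : Set α} (h : SmallE t (id : α → α) N)
    (he : ∀ (g : α → α) (A A' : Set α), A ⊆ N → A' ⊆ N →
      (∀ x ∈ A, ∀ y ∈ N, e y = e x → y ∈ A) → (∀ x ∈ A', ∀ y ∈ N, e y = e x → y ∈ A') →
      Emb t id t id g A → g '' A = A' → ∀ x ∈ A, ∀ y ∈ A, (e (g x) = e (g y) ↔ e x = e y)) :
    SmallE t e N := by
  intro A z h1 h2 h3 h4 h5
  obtain ⟨K, K', h6, g, hg, h7, h8⟩ := h A z h1 h2 h3
    (fun K x hx y _ hxy => by
      have hxy' : y = x := hxy
      rw [hxy']
      exact hx) h5
  exact ⟨K, K', h6, g, ⟨hg.inj, hg.lab, he g _ _ (h3 K) (h3 K') (h4 K) (h4 K') hg h7⟩, h7, h8⟩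

end Pool.Agent.H75.HCI
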