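import Pool.Agent.H75.HCI.ARR

/-!
# GP: the growing blocks lemma
-/

set_option autoImplicit false

namespace Pool.Agent.H75.HCI

open Set

section

variable {k κ : ℕ} {L : Type} {cl : Fin k → Fin k} {T : List (Idx k κ) → L}

lemma sh_maps {φ : ℕ → ℕ} (hφ : StrictMono φ) {s : ℕ → ℕ} (hs : StrictMono s) :
    MapsTo (sh φ) (V k κ s) (V k κ s) := by
  intro p hp q hq
  exact lt_of_lt_of_le (hp q hq) (hs.monotone (hφ.id_le _))

/-- Consecutive blocks or coordinates are equivalent if this holds for pairs with unbounded indices. -/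
theorem mp (hT : PatInv T) {s : ℕ → ℕ} (hs : StrictMono s) (w : Fin k ⊕ ℕ × Fin κ)
    (hw : ∀ i, ((i, w) : Idx k κ) ∈ V k κ s)
    (h : ∀ J, ∃ j j', J ≤ j ∧ j < j' ∧ Eqv T (ec cl) (V k κ s) (ec cl (j, w)) (ec cl (j', w)))
    (i : ℕ) : Eqv T (ec cl) (V k κ s) (ec cl (i, w)) (ec cl (i + 1, w)) := by
  obtain ⟨j, j', h1, h2, h3⟩ := h i
  set φ : ℕ → ℕ := fun n => if n < i then n else if n = i then j else j' + (n - (i + 1)) with hφ
  have hmono : StrictMono φ := by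
    refine strictMono_nat_of_lt_succ fun n => ?_
    simp only [hφ]
    split_ifs <;> omega
  have e1 : φ i = j := by simp [hφ]
  have e2 : φ (i + 1) = j' := by simp [hφ]
  refine eqv_preimage (h := sh φ) (emb_of_pat hT (pat_sh hmono _)) (sh_maps hmono hs)
    (fun x hx y hy hxy => ?_) (hw i) (hw (i + 1)) ?_
  · obtain ⟨x', hx1, hx2, _⟩ := sh_full x y hy hxy hx
    exact ⟨x', hx1, hx2⟩
  · simp only [sh]
    rw [e1, e2]
    exact h3

theorem mp_all (hT : PatInv T) {s : ℕ → ℕ} (hs : StrictMono s) (w : Fin k ⊕ ℕ × Fin κ)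
    (hw : ∀ i, ((i, w) : Idx k κ) ∈ V k κ s)
    (h : ∀ J, ∃ j j', J ≤ j ∧ j < j' ∧ Eqv T (ec cl) (V k κ s) (ec cl (j, w)) (ec cl (j', w)))
    (i i' : ℕ) : Eqv T (ec cl) (V k κ s) (ec cl (i, w)) (ec cl (i', w)) := by
  have h0 : ∀ n, Eqv T (ec cl) (V k κ s) (ec cl (0, w)) (ec cl (n, w)) := by
    intro n
    induction n with
    | zero => exact eqv_refl ⟨_, hw 0, rfl⟩
    | succ n ih => exact eqv_trans ih (mp hT hs w hw h n)
  exact eqv_trans (eqv_symm (h0 i)) (h0 i')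

lemma eqv_block (hκ : 1 ≤ κ) (hT : PatInv T) (s : ℕ → ℕ) (i m m' : ℕ) (hm : m < s i)
    (hm' : m' < s i) : Eqv T (ec cl) (V k κ s) ((i, .inr m) : ℕ × (Fin k ⊕ ℕ)) (i, .inr m') :=
  ⟨_, spart_block hκ hT s i, ⟨m, hm, rfl⟩, ⟨m', hm', rfl⟩⟩

/-- A set of numbers which is unbounded: two equal values of a function with few values. -/
lemma exists_pair (S : Set ℕ) (hS : ∀ J, ∃ i ∈ S, J ≤ i) (f : ℕ → ℕ) (J : ℕ)
    (hf : ∀ i ∈ S, f i < J) : ∃ i ∈ S, ∃ i' ∈ S, i ≠ i' ∧ f i = f i' := by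
  have hinf : S.Infinite := by
    refine Set.infinite_of_not_bddAbove fun ⟨b, hb⟩ => ?_
    obtain ⟨i, hi, h⟩ := hS (b + 1)
    have := hb hi
    omega
  obtain ⟨i, hi, i', hi', h1, h2⟩ := hinf.exists_ne_map_eq_of_mapsTo
    (t := Iio J) (fun i hi => hf i hi) (finite_Iio J)
  exact ⟨i, hi, i', hi', h1, h2⟩

lemma unif {k : ℕ} (P : Fin k → ℕ → Prop) (hP : ∀ b J J', J ≤ J' → P b J' → P b J)
    (h : ∀ J, ∃ b, P b J) : ∃ b, ∀ J, P b J := by
  by_contra hcon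
  push Not at hcon
  choose J hJ using hcon
  obtain ⟨b, hb⟩ := h (Finset.univ.sup J)
  exact hJ b (hP b _ _ (Finset.le_sup (Finset.mem_univ b)) hb)

/-- Isomorphisms preserve the equivalence of classes. -/
lemma eqv_iso {α β α' β' : Type} {t : List α → L} {e : α → β} {t' : List α' → L} {e' : α' → β'}
    {N : Set α} {N' : Set α'} [Nonempty α] {g : α → α'} (hg : Emb t e t' e' g N)
    (hgb : g '' N = N') {p q : α} (hp : p ∈ N) (hq : q ∈ N) :
    Eqv t e N (e p) (e q) ↔ Eqv t' e' N' (e' (g p)) (e' (g q)) := by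
  have hm : MapsTo g N N' := fun x hx => by rw [← hgb]; exact ⟨x, hx, rfl⟩
  refine ⟨fun h => ?_, fun h => eqv_preimage hg hm (fun x _ y hy _ => by
    rw [← hgb] at hy; exact hy) hp hq h⟩
  set gi : α' → α := Function.invFunOn g N with hgi
  have hgi1 : ∀ y ∈ N', gi y ∈ N ∧ g (gi y) = y := by
    intro y hy
    rw [← hgb] at hy
    exact ⟨Function.invFunOn_mem hy, Function.invFunOn_eq hy⟩
  have hgi2 : ∀ x ∈ N, gi (g x) = x := fun x hx =>
    hg.inj (hgi1 _ (hm hx)).1 hx (hgi1 _ (hm hx)).2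
  have hEmb : Emb t' e' t e gi N' := by
    refine ⟨fun x hx y hy hxy => ?_, fun l hl => ?_, fun x hx y hy => ?_⟩
    · rw [← (hgi1 x hx).2, ← (hgi1 y hy).2, hxy]
    · rw [← hg.lab (l.map gi)]
      · rw [List.map_map]
        congr 1
        conv_rhs => rw [← List.map_id l]
        exact List.map_congr_left fun x hx => (hgi1 x (hl x hx)).2
      · intro y hy
        obtain ⟨x, hx, rfl⟩ := List.mem_map.1 hy
        exact (hgi1 x (hl x hx)).1
    · rw [← hg.cls _ (hgi1 x hx).1 _ (hgi1 y hy).1, (hgi1 x hx).2, (hgi1 y hy).2]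
  refine eqv_preimage (h := gi) hEmb (fun y hy => (hgi1 y hy).1)
    (fun x _ y hy _ => ⟨g y, hm hy, hgi2 y hy⟩) (hm hp) (hm hq) ?_
  rw [hgi2 p hp, hgi2 q hq]
  exact h

end

end Pool.Agent.H75.HCI
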