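import Pool.Agent.H75.HCI.GP

/-!
# GP: all blocks are equivalent
-/

set_option autoImplicit false

namespace Pool.Agent.H75.HCI

open Set

section

variable {k κ : ℕ} {L : Type} {cl : Fin k → Fin k} {T : List (Idx k κ) → L}

/-- If block `i` is equivalent to another block for infinitely many `i` then all are equivalent. -/
theorem blocks_all (hκ : 1 ≤ κ) (hT : PatInv T) {s : ℕ → ℕ} (hs : StrictMono s)
    (h1 : ∀ i, 1 ≤ s i)
    (h : ∀ J, ∃ i, J ≤ i ∧ ∃ i', i' ≠ i ∧ Eqv T (ec cl) (V k κ s)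
      (ec cl (i, .inr (0, ⟨0, hκ⟩))) (ec cl (i', .inr (0, ⟨0, hκ⟩)))) (i i' : ℕ) :
    Eqv T (ec cl) (V k κ s) (ec cl (i, .inr (0, ⟨0, hκ⟩))) (ec cl (i', .inr (0, ⟨0, hκ⟩))) := by
  have hw : ∀ i, ((i, .inr (0, ⟨0, hκ⟩)) : Idx k κ) ∈ V k κ s := by
    intro i q hq
    simp only [Sum.inr.injEq] at hq
    rw [← hq]
    exact h1 i
  refine mp_all hT hs _ hw (fun J => ?_) i i'
  by_contra hcon
  push Not at hcon
  choose c hc1 c' hc2 hc3 using h
  -- the second index is below `J`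
  have hlt : ∀ n, c' (max J n) < J := by
    intro n
    by_contra hge
    push Not at hge
    rcases lt_or_gt_of_ne (hc2 (max J n)) with h2 | h2
    · exact hcon _ _ hge h2 (eqv_symm (hc3 _))
    · exact hcon _ _ (le_trans (le_max_left J n) (hc1 _)) h2 (hc3 _)
  obtain ⟨a, ⟨n, rfl⟩, b, ⟨n', rfl⟩, hab, hf⟩ := exists_pair
    (range fun n => c (max J n)) (fun J' => ⟨_, ⟨J', rfl⟩, le_trans (le_max_right J J') (hc1 _)⟩)
    (fun a => by
      classical
      exact if h : ∃ n, c (max J n) = a then c' (max J h.choose) else 0) J (by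
      rintro a ⟨n, rfl⟩
      have h2 : ∃ m, c (max J m) = c (max J n) := ⟨n, rfl⟩
      simp only [h2, dif_pos]
      exact hlt _)
  have h2 : ∃ m, c (max J m) = c (max J n) := ⟨n, rfl⟩
  have h3 : ∃ m, c (max J m) = c (max J n') := ⟨n', rfl⟩
  simp only [h2, h3, dif_pos] at hf
  have e1 := hc3 (max J h2.choose)
  have e2 := hc3 (max J h3.choose)
  rw [h2.choose_spec] at e1
  rw [h3.choose_spec] at e2
  rw [hf] at e1
  have e3 := eqv_trans e1 (eqv_symm e2)
  have g1 : J ≤ c (max J n) := le_trans (le_max_left _ _) (hc1 _)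
  have g2 : J ≤ c (max J n') := le_trans (le_max_left _ _) (hc1 _)
  rcases lt_or_gt_of_ne hab with h4 | h4
  · exact hcon _ _ g1 h4 e3
  · exact hcon _ _ g2 h4 (eqv_symm e3)

/-- If block `i` is equivalent to no other block for large `i` then its class contains every coordinate
at most once for large `i`. -/
theorem coord_once (hκ : 1 ≤ κ) (hT : PatInv T) {s : ℕ → ℕ} (hs : StrictMono s) (J0 : ℕ)
    (h0 : ∀ i, J0 ≤ i → ∀ i', i' ≠ i → ¬ Eqv T (ec cl) (V k κ s)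
      (ec cl (i, .inr (0, ⟨0, hκ⟩))) (ec cl (i', .inr (0, ⟨0, hκ⟩)))) :
    ∃ J1, J0 ≤ J1 ∧ ∀ i, J1 ≤ i → ∀ (b : Fin k) (j j' : ℕ), j < j' →
      Eqv T (ec cl) (V k κ s) (ec cl (i, .inr (0, ⟨0, hκ⟩))) (ec cl ((j, .inl b) : Idx k κ)) →
      ¬ Eqv T (ec cl) (V k κ s) (ec cl (i, .inr (0, ⟨0, hκ⟩))) (ec cl ((j', .inl b) : Idx k κ)) := by
  by_contra hcon
  push Not at hcon
  obtain ⟨b, hb⟩ := unif (fun (b : Fin k) J => ∃ i, max J0 J ≤ i ∧ ∃ j j', j < j' ∧
      Eqv T (ec cl) (V k κ s) (ec cl (i, .inr (0, ⟨0, hκ⟩))) (ec cl ((j, .inl b) : Idx k κ)) ∧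
      Eqv T (ec cl) (V k κ s) (ec cl (i, .inr (0, ⟨0, hκ⟩))) (ec cl ((j', .inl b) : Idx k κ)))
    (by
      rintro b J J' hJ ⟨i, hi, h⟩
      exact ⟨i, le_trans (max_le_max_left _ hJ) hi, h⟩)
    (by
      intro J
      obtain ⟨i, hi, b, j, j', h2, h3, h4⟩ := hcon (max J0 J) (le_max_left _ _)
      exact ⟨b, i, hi, j, j', h2, h3, h4⟩)
  have hw : ∀ i, ((i, .inl b) : Idx k κ) ∈ V k κ s := by
    intro i q hq
    cases hq
  choose c hc j j' hjj h2 h3 using hb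
  have hcJ : ∀ J, J ≤ c J := fun J => le_trans (le_max_right _ _) (hc J)
  have hcJ0 : ∀ J, J0 ≤ c J := fun J => le_trans (le_max_left _ _) (hc J)
  have hne : ∀ J J', c J ≠ c J' → ¬ Eqv T (ec cl) (V k κ s)
      (ec cl (c J, .inr (0, ⟨0, hκ⟩))) (ec cl (c J', .inr (0, ⟨0, hκ⟩))) := fun J J' h =>
    h0 _ (hcJ0 J) _ (Ne.symm h)
  have hall : ∀ i i', Eqv T (ec cl) (V k κ s) (ec cl ((i, .inl b) : Idx k κ)) (ec cl ((i', .inl b) : Idx k κ)) := by
    refine mp_all hT hs _ hw fun J => ?_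
    by_contra hcon2
    push Not at hcon2
    have hlt : ∀ n, j n < J := by
      intro n
      by_contra hge
      push Not at hge
      exact hcon2 _ _ hge (hjj n) (eqv_trans (eqv_symm (h2 n)) (h3 n))
    obtain ⟨a, ⟨n, rfl⟩, b', ⟨n', rfl⟩, hab, hf⟩ := exists_pair (range c)
      (fun J' => ⟨_, ⟨J', rfl⟩, hcJ J'⟩)
      (fun a => by
        classical
        exact if h : ∃ n, c n = a then j h.choose else 0) J (by
        rintro a ⟨n, rfl⟩
        have h5 : ∃ m, c m = c n := ⟨n, rfl⟩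
        simp only [h5, dif_pos]
        exact hlt _)
    have h5 : ∃ m, c m = c n := ⟨n, rfl⟩
    have h6 : ∃ m, c m = c n' := ⟨n', rfl⟩
    simp only [h5, h6, dif_pos] at hf
    have e1 := h2 h5.choose
    have e2 := h2 h6.choose
    rw [hf] at e1
    refine hne h5.choose h6.choose ?_ (eqv_trans e1 (eqv_symm e2))
    rw [h5.choose_spec, h6.choose_spec]
    exact hab
  have h5 : c 0 ≠ c (c 0 + 1) := by
    have := hcJ (c 0 + 1)
    omega
  exact hne _ _ h5 (eqv_trans (h2 0) (eqv_trans (hall _ _) (eqv_symm (h2 _))))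

end

end Pool.Agent.H75.HCI
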