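import Pool.Agent.H75.HCI.Small

/-!
# Growing blocks in structures with few substructures
-/

set_option autoImplicit false

namespace Pool.Agent.H75.HCI

open Set

variable {α β L : Type} {t : List α → L} {e : α → β} {N : Set α} {z : List α} {k κ : ℕ}
  {cl : Fin k → Fin k} {T : List (Idx k κ) → L} {S : ℕ → ℕ} {pt : Idx k κ → α}

/-- The part of the array with blocks in `B`, with the marks. -/
def AF {α : Type} {k κ : ℕ} (z : List α) (S : ℕ → ℕ) (pt : Idx k κ → α) (B : Set ℕ) : Set α :=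
  {x | x ∈ z} ∪ pt '' {p | p ∈ V k κ S ∧ p.1 ∈ B}

lemma af_measurable (z : List α) (S : ℕ → ℕ) (pt : Idx k κ → α) (x : α) :
    MeasurableSet {c : ℕ → Bool | x ∈ AF z S pt (br c)} := by
  by_cases hx : x ∈ z
  · have : {c : ℕ → Bool | x ∈ AF z S pt (br c)} = univ :=
      eq_univ_of_forall fun c => Or.inl hx
    rw [this]
    exact MeasurableSet.univ
  · have h1 : {c : ℕ → Bool | x ∈ AF z S pt (br c)} =
        ⋃ p ∈ {p : Idx k κ | p ∈ V k κ S ∧ pt p = x}, {c : ℕ → Bool | p.1 ∈ br c} := by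
      ext c
      simp only [AF, mem_union, mem_image, mem_ofPred_eq, mem_iUnion, exists_prop]
      constructor
      · rintro (h | ⟨p, ⟨h1, h2⟩, h3⟩)
        · exact absurd h hx
        · exact ⟨p, ⟨h1, h3⟩, h2⟩
      · rintro ⟨p, ⟨h1, h3⟩, h2⟩
        exact Or.inr ⟨p, ⟨h1, h2⟩, h3⟩
    rw [h1]
    exact MeasurableSet.biUnion (to_countable _) fun p _ => br_measurable p.1

lemma sf_pos (hS : SF k S) (n : ℕ) : 1 ≤ S n := by
  have := hS n
  omega

lemma af_infinite (hκ : 1 ≤ κ) (hS : SF k S) (hA : Arr t e N z cl T S pt) (B : Set ℕ)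
    (hB : B.Infinite) : (AF z S pt B).Infinite := by
  have h1 : (pt '' {p | p ∈ V k κ S ∧ p.1 ∈ B}).Infinite := by
    refine Infinite.image (hA.inj.mono fun p hp => hp.1) ?_
    have h2 : ((fun n : ℕ => ((n, .inr (0, ⟨0, hκ⟩)) : Idx k κ)) '' B).Infinite := by
      refine Infinite.image ?_ hB
      intro a _ b _ h
      exact (Prod.ext_iff.1 h).1
    refine h2.mono ?_
    rintro _ ⟨n, hn, rfl⟩
    refine ⟨?_, hn⟩
    intro q hq
    have hq' : (0, ⟨0, hκ⟩) = q := Sum.inr.inj hq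
    rw [← hq']
    exact sf_pos hS n
  exact h1.mono subset_union_right

lemma af_sub (hA : Arr t e N z cl T S pt) (B : Set ℕ) : AF z S pt B ⊆ N := by
  rintro x (hx | ⟨p, ⟨h1, _⟩, rfl⟩)
  · exact hA.mark x hx
  · exact hA.maps h1

lemma ec_fst {p q : Idx k κ} (h : ec cl p = ec cl q) : p.1 = q.1 := (Prod.ext_iff.1 h).1

lemma af_full (hA : Arr t e N z cl T S pt) (B : Set ℕ) : ∀ x ∈ AF z S pt B, ∀ y ∈ N,
    e y = e x → y ∈ AF z S pt B := by
  rintro x (hx | ⟨p, ⟨h1, h2⟩, rfl⟩) y hy hxy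
  · exact Or.inl (hA.markE x hx y hy hxy)
  · obtain ⟨q, hq, rfl⟩ := hA.full p h1 y hy hxy
    have h3 := (hA.cls q hq p h1).1 hxy
    refine Or.inr ⟨q, ⟨hq, ?_⟩, rfl⟩
    rw [ec_fst h3]
    exact h2

lemma sh_mem {φ : ℕ → ℕ} {p : Idx k κ} (hp : p ∈ V k κ fun i => S (φ i)) :
    sh φ p ∈ V k κ S := hp

lemma sh_surj {φ : ℕ → ℕ} {B : Set ℕ} (hB : range φ = B) {p : Idx k κ} (hp : p ∈ V k κ S)
    (hpB : p.1 ∈ B) : ∃ q ∈ V k κ (fun i => S (φ i)), sh φ q = p := by
  rw [← hB] at hpB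
  obtain ⟨i, hi⟩ := hpB
  refine ⟨(i, p.2), ?_, Prod.ext hi rfl⟩
  intro q hq
  have := hp q hq
  change q.1 < S (φ i)
  rw [hi]
  exact this

lemma sh_inj {φ : ℕ → ℕ} (hφ : StrictMono φ) {p q : Idx k κ} (h : sh φ p = sh φ q) : p = q := by
  obtain ⟨h1, h2⟩ := Prod.ext_iff.1 h
  exact Prod.ext (hφ.injective h1) h2

lemma sh_ec {φ : ℕ → ℕ} (hφ : StrictMono φ) (p q : Idx k κ) :
    ec cl (sh φ p) = ec cl (sh φ q) ↔ ec cl p = ec cl q := by
  simp only [ec, sh, Prod.mk.injEq, hφ.injective.eq_iff]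

/-- An isomorphism between two parts of the array. -/
theorem transport (hT : PatInv T) (hA : Arr t e N z cl T S pt) {φ φ' : ℕ → ℕ}
    (hφ : StrictMono φ) (hφ' : StrictMono φ') (g : α → α)
    (hg : Emb t e t e g (AF z S pt (range φ)))
    (him : g '' AF z S pt (range φ) = AF z S pt (range φ')) (hz : ∀ x ∈ z, g x = x) :
    ∃ g' : Idx k κ → Idx k κ, Emb T (ec cl) T (ec cl) g' (V k κ fun i => S (φ i)) ∧
      g' '' (V k κ fun i => S (φ i)) = V k κ fun i => S (φ' i) := by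
  classical
  have hin : ∀ p ∈ V k κ (fun i => S (φ i)), pt (sh φ p) ∈ AF z S pt (range φ) :=
    fun p hp => Or.inr ⟨sh φ p, ⟨sh_mem hp, ⟨p.1, rfl⟩⟩, rfl⟩
  have hex : ∀ p ∈ V k κ (fun i => S (φ i)), ∃ q ∈ V k κ (fun i => S (φ' i)),
      pt (sh φ' q) = g (pt (sh φ p)) := by
    intro p hp
    have h1 : g (pt (sh φ p)) ∈ AF z S pt (range φ') := by
      rw [← him]
      exact ⟨_, hin p hp, rfl⟩
    rcases h1 with h1 | ⟨q, ⟨hq1, hq2⟩, hq3⟩
    · exfalso
      have h2 := hz _ h1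
      have h3 := hg.inj (Or.inl h1) (hin p hp) h2
      rw [h3] at h1
      exact hA.disj _ (sh_mem hp) h1
    · obtain ⟨q', hq', rfl⟩ := sh_surj (S := S) rfl hq1 hq2
      exact ⟨q', hq', hq3⟩
  choose! g' hg'1 hg'2 using hex
  refine ⟨g', ⟨?_, ?_, ?_⟩, ?_⟩
  · intro p hp q hq hpq
    have h1 : g (pt (sh φ p)) = g (pt (sh φ q)) := by
      rw [← hg'2 p hp, ← hg'2 q hq, hpq]
    have h2 := hg.inj (hin p hp) (hin q hq) h1
    exact sh_inj hφ (hA.inj (sh_mem hp) (sh_mem hq) h2)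
  · intro l hl
    have e1 : T (l.map g') = T ((l.map g').map (sh φ')) :=
      (hT (sh φ') univ (pat_sh hφ' univ) _ fun _ _ => mem_univ _).symm
    have e2 : T ((l.map g').map (sh φ')) = t (z ++ ((l.map g').map (sh φ')).map pt) := by
      refine hA.lab _ fun p hp => ?_
      rw [List.map_map, List.mem_map] at hp
      obtain ⟨x, hx, rfl⟩ := hp
      exact sh_mem (hg'1 x (hl x hx))
    have e3 : z ++ ((l.map g').map (sh φ')).map pt = (z ++ (l.map (sh φ)).map pt).map g := by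
      rw [List.map_append]
      congr 1
      · symm
        conv_rhs => rw [← List.map_id z]
        exact List.map_congr_left fun x hx => hz x hx
      · rw [List.map_map, List.map_map, List.map_map, List.map_map]
        exact List.map_congr_left fun x hx => hg'2 x (hl x hx)
    have e4 : t ((z ++ (l.map (sh φ)).map pt).map g) = t (z ++ (l.map (sh φ)).map pt) := by
      refine hg.lab _ fun x hx => ?_
      rcases List.mem_append.1 hx with hx | hx
      · exact Or.inl hx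
      · rw [List.map_map, List.mem_map] at hx
        obtain ⟨y, hy, rfl⟩ := hx
        exact hin y (hl y hy)
    have e5 : t (z ++ (l.map (sh φ)).map pt) = T (l.map (sh φ)) := by
      refine (hA.lab _ fun p hp => ?_).symm
      rw [List.mem_map] at hp
      obtain ⟨x, hx, rfl⟩ := hp
      exact sh_mem (hl x hx)
    have e6 : T (l.map (sh φ)) = T l := hT (sh φ) univ (pat_sh hφ univ) _ fun _ _ => mem_univ _
    rw [e1, e2, e3, e4, e5, e6]
  · intro p hp q hq
    rw [← sh_ec hφ' (g' p) (g' q), ← hA.cls _ (sh_mem (hg'1 p hp)) _ (sh_mem (hg'1 q hq)),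
      hg'2 p hp, hg'2 q hq, hg.cls _ (hin p hp) _ (hin q hq),
      hA.cls _ (sh_mem hp) _ (sh_mem hq), sh_ec hφ]
  · refine Subset.antisymm ?_ ?_
    · rintro _ ⟨p, hp, rfl⟩
      exact hg'1 p hp
    · intro q hq
      have h1 : pt (sh φ' q) ∈ AF z S pt (range φ') :=
        Or.inr ⟨sh φ' q, ⟨sh_mem hq, ⟨q.1, rfl⟩⟩, rfl⟩
      rw [← him] at h1
      obtain ⟨x, hx, hxq⟩ := h1
      rcases hx with hx | ⟨p, ⟨hp1, hp2⟩, rfl⟩
      · exfalso
        rw [hz x hx] at hxq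
        rw [hxq] at hx
        exact hA.disj _ (sh_mem hq) hx
      · obtain ⟨p', hp', rfl⟩ := sh_surj (S := S) rfl hp1 hp2
        refine ⟨p', hp', ?_⟩
        have h2 := hg'2 p' hp'
        rw [hxq] at h2
        exact sh_inj hφ' (hA.inj (sh_mem (hg'1 p' hp')) (sh_mem hq) h2)

/-- GPM holds. -/
theorem pf_GPM : T_GPM := by
  intro α β L t e N z k κ cl T S pt hsm hκ hS hT hA
  obtain ⟨c, c', hcc, g, hg, him, hz⟩ := hsm (fun c => AF z S pt (br c)) z
    (fun x => af_measurable z S pt x) (fun c => af_infinite hκ hS hA _ (br_infinite c))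
    (fun c => af_sub hA _) (fun c => af_full hA _) (fun c x hx => Or.inl hx)
  obtain ⟨φ, hφ, hφr⟩ := exists_enum (br c) (br_infinite c)
  obtain ⟨φ', hφ', hφr'⟩ := exists_enum (br c') (br_infinite c')
  rw [← hφr] at hg
  have him2 : g '' AF z S pt (range φ) = AF z S pt (range φ') := by
    rw [hφr, hφr']
    exact him
  obtain ⟨g', h1, h2⟩ := transport hT hA hφ hφ' g hg him2 hz
  refine pf_GP k κ L cl T (fun i => S (φ i)) (fun i => S (φ' i)) g' hκ hT
    ((sf_mono hS).comp hφ) ((sf_mono hS).comp hφ') (fun i => sf_pos hS _) ?_ h1 h2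
  refine fast_of hS hφ hφ' ?_
  rw [hφr, hφr']
  exact br_inter hcc

end Pool.Agent.H75.HCI
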