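import Pool.Agent.H75.HCI.MK3
import Pool.Agent.H75.HCI.NK
import Pool.Agent.H75.HCI.FIN

/-!
# Growing blocks for sequences of tuples and blocks
-/

set_option autoImplicit false

namespace Pool.Agent.H75.HCI

open Set

variable {α β L : Type} {t : List α → L} {e : α → β} {N : Set α} {z : List α} {k κ r : ℕ}
  {cl : Fin k → Fin k}

/-- Fast growing sizes. -/
theorem exists_sf (k : ℕ) : ∃ S : ℕ → ℕ, SF k S ∧ ∀ i, 2 ≤ S i := by
  let P : ℕ → ℕ := fun n => Nat.rec 0 (fun _ p => p + (k + p + 2 + k)) n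
  have hP : ∀ n, P (n + 1) = P n + (k + P n + 2 + k) := fun _ => rfl
  have hsum : ∀ n, ∑ j ∈ Finset.range n, (k + P j + 2 + k) = P n := by
    intro n
    induction n with
    | zero => rfl
    | succ n ih => rw [Finset.sum_range_succ, ih, hP]
  refine ⟨fun n => k + P n + 2, fun n => ?_, fun i => by
    change 2 ≤ k + P i + 2
    omega⟩
  change k + ∑ j ∈ Finset.range n, (k + P j + 2 + k) < k + P n + 2
  rw [hsum]
  omega

lemma fin_le (h : ∀ m, {y | ∃ l : List α, l.length = m ∧ (∀ x ∈ l, x ∈ N) ∧ t l = y}.Finite)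
    (r : ℕ) : {y | ∃ l : List α, l.length ≤ r ∧ (∀ x ∈ l, x ∈ N) ∧ t l = y}.Finite := by
  refine ((finite_Iic r).biUnion fun m _ => h m).subset ?_
  rintro y ⟨l, h1, h2, h3⟩
  rw [mem_iUnion₂]
  exact ⟨l.length, h1, l, rfl, h2, h3⟩

/-- GPX: the growing blocks lemma for sequences of tuples and blocks. -/
theorem gpx (hs : SmallE t e N) (hr : 2 ≤ r) (hloc : Loc r t)
    (hfin : ∀ m, {y | ∃ l : List α, l.length = m ∧ (∀ x ∈ l, x ∈ N) ∧ t l = y}.Finite)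
    (hκ : 1 ≤ κ) {x : ℕ → Fin k → α} {v : ℕ → ℕ → Fin κ → α} (hp : ArrPre t e N z cl x v)
    {S : ℕ → ℕ} (hS : SF k S) (hS2 : ∀ i, 2 ≤ S i) :
    ∃ n : ℕ → ℕ, StrictMono n ∧ ∃ T : List (Idx k κ) → (List ℕ → L), PatInv T ∧
      Arr (ft t) e N z cl T S (arr x v S n) ∧ ∃ In : Set (Fin k), In ⊆ range cl ∧
        SPart T (ec cl) (univ : Set (Idx k κ))
          {q : ℕ × (Fin k ⊕ ℕ) | ∀ β, q.2 = .inl β → β ∈ In} := by
  obtain ⟨n, hn, T, hT, hA⟩ := mk_arr hr hloc (fin_le hfin r) hp (sf_mono hS) hS2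
  exact ⟨n, hn, T, hT, hA, pf_GPM α β _ (ft t) e N z k κ cl T S _ (small_ft hs) hκ hS hT hA⟩

end Pool.Agent.H75.HCI
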