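import Pool.Agent.H75.HCI.Ft
import Pool.Agent.H75.HCI.RA

/-!
# Arrays from sequences
-/

set_option autoImplicit false

namespace Pool.Agent.H75.HCI

open Set

variable {α β L : Type} {t : List α → L} {e : α → β} {N : Set α} {z : List α} {k κ r : ℕ}
  {cl : Fin k → Fin k} {S : ℕ → ℕ}

/-- A code of a list of at most `r` members. -/
abbrev Cod (r s : ℕ) : Type := Σ m : Fin (r + 1), (Fin m → Fin s ⊕ Fin r)

/-- The list with a given code. -/
def lc (z : List α) (y : Fin r → α) (γ : Cod r z.length) : List α :=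
  List.ofFn fun j => Sum.elim z.get y (γ.2 j)

lemma get_append {n : ℕ} (z : List α) (y : Fin n → α) (i : ℕ)
    (hi : i < (z ++ List.ofFn y).length) : (z ++ List.ofFn y).get ⟨i, hi⟩ =
      if h : i < z.length then z.get ⟨i, h⟩ else y ⟨i - z.length, by
        rw [List.length_append, List.length_ofFn] at hi
        omega⟩ := by
  rw [List.get_eq_getElem]
  by_cases h : i < z.length
  · rw [dif_pos h]
    simp only [List.getElem_append, h, dif_pos]
    rfl
  · rw [dif_neg h]
    simp only [List.getElem_append, h, dif_neg, not_false_eq_true, List.getElem_ofFn]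

/-- The labels of codes determine the labels. -/
theorem loc_code (hloc : Loc r t) {n : ℕ} (hn : 0 < n) (y y' : Fin n → α)
    (h : ∀ (f : Fin r → Fin n) (γ : Cod r z.length), t (lc z (y ∘ f) γ) = t (lc z (y' ∘ f) γ)) :
    ft t (z ++ List.ofFn y) = ft t (z ++ List.ofFn y') := by
  have hlen : ∀ y : Fin n → α, (z ++ List.ofFn y).length = z.length + n := by
    intro y
    rw [List.length_append, List.length_ofFn]
  refine hloc _ _ ((hlen y).trans (hlen y').symm) fun w hw => ?_
  unfold ft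
  rw [← sel_filter _ w _ (hlen y), ← sel_filter _ w _ (hlen y')]
  set w0 := w.filter fun i => decide (i < z.length + n) with hw0
  have h0 : ∀ i ∈ w0, i < z.length + n := fun i hi => by
    rw [hw0, List.mem_filter] at hi
    exact of_decide_eq_true hi.2
  have hr : w0.length ≤ r := (List.length_filter_le _ _).trans hw
  clear_value w0
  let f : Fin r → Fin n := fun j =>
    ⟨if h : (j : ℕ) < w0.length then w0.get ⟨j, h⟩ - z.length else 0, by
      split_ifs with h1
      · have := h0 _ (w0.get_mem ⟨j, h1⟩)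
        omega
      · exact hn⟩
  let γ : Cod r z.length := ⟨⟨w0.length, by omega⟩, fun j =>
    if h : w0.get j < z.length then .inl ⟨w0.get j, h⟩ else .inr ⟨j, j.2.trans_le hr⟩⟩
  have key : ∀ y : Fin n → α, sel (z ++ List.ofFn y) w0 = lc z (y ∘ f) γ := by
    intro y
    rw [sel_eq _ _ fun i hi => (hlen y).symm ▸ h0 i hi]
    unfold lc
    congr 1
    funext j
    rw [get_append]
    by_cases hj : w0.get j < z.length
    · rw [dif_pos hj]
      have : γ.2 j = .inl ⟨w0.get j, hj⟩ := dif_pos hj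
      rw [this]
      rfl
    · rw [dif_neg hj]
      have : γ.2 j = .inr ⟨j, j.2.trans_le hr⟩ := dif_neg hj
      rw [this]
      change _ = y (f ⟨j, _⟩)
      congr 1
      refine Fin.ext ?_
      change w0.get j - z.length = if h : (j : ℕ) < w0.length then w0.get ⟨j, h⟩ - z.length else 0
      rw [dif_pos j.2]
  rw [key y, key y']
  exact h f γ

/-- The array with its labels. -/
structure ArrPre (t : List α → L) (e : α → β) (N : Set α) (z : List α) (cl : Fin k → Fin k)
    (x : ℕ → Fin k → α) (v : ℕ → ℕ → Fin κ → α) : Prop where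
  xN : ∀ j b, x j b ∈ N
  xinj : ∀ j, Function.Injective (x j)
  xcl : ∀ j b b', (e (x j b) = e (x j b') ↔ cl b = cl b')
  xdis : ∀ j j' b b', j ≠ j' → e (x j b) ≠ e (x j' b')
  xfull : ∀ j b, ∀ y ∈ N, e y = e (x j b) → ∃ b', x j b' = y
  xz : ∀ j b, x j b ∉ z
  vN : ∀ j m c, v j m c ∈ N
  vinj : ∀ j m, Function.Injective (v j m)
  vcl : ∀ j m c c', e (v j m c) = e (v j m c')
  vdis : ∀ j m m' c c', m ≠ m' → e (v j m c) ≠ e (v j m' c')
  vfull : ∀ j m c, ∀ y ∈ N, e y = e (v j m c) → ∃ c', v j m c' = y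
  vz : ∀ j m c, v j m c ∉ z
  zN : ∀ x ∈ z, x ∈ N
  zfull : ∀ x ∈ z, ∀ y ∈ N, e y = e x → y ∈ z

/-- Homogeneous arrays. -/
theorem homog (hr : 2 ≤ r) (hfin : {y | ∃ l : List α, l.length ≤ r ∧ (∀ x ∈ l, x ∈ N) ∧
    t l = y}.Finite) {x : ℕ → Fin k → α} {v : ℕ → ℕ → Fin κ → α} (hp : ArrPre t e N z cl x v)
    (S : ℕ → ℕ) : ∃ n : ℕ → ℕ, StrictMono n ∧
    (∀ p q : Fin r → Idx k κ, (∀ i, p i ∈ V k κ S) → (∀ i, q i ∈ V k κ S) → SamePat p q →
      ∀ γ : Cod r z.length, t (lc z (fun i => arr x v S n (p i)) γ) =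
        t (lc z (fun i => arr x v S n (q i)) γ)) ∧
    ∀ p p' q q' : Idx k κ, p ∈ V k κ S → p' ∈ V k κ S → q ∈ V k κ S → q' ∈ V k κ S →
      SamePat ![p, p'] ![q, q'] → (e (arr x v S n p) = e (arr x v S n p') ↔
        e (arr x v S n q) = e (arr x v S n q')) := by
  classical
  let Lr := {y | ∃ l : List α, l.length ≤ r ∧ (∀ x ∈ l, x ∈ N) ∧ t l = y}
  have : Finite Lr := hfin
  let lab : (Fin r → N) → (Cod r z.length → Lr) × (Fin r → Fin r → Prop) := fun y =>
    (fun γ => ⟨t (lc z (fun i => (y i : α)) γ), lc z (fun i => (y i : α)) γ, by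
      unfold lc
      rw [List.length_ofFn]
      have := γ.1.2
      omega, fun x hx => by
      unfold lc at hx
      rw [List.mem_ofFn] at hx
      obtain ⟨j, rfl⟩ := hx
      rcases γ.2 j with a | a
      · exact hp.zN _ (z.get_mem a)
      · exact (y a).2, rfl⟩, fun a b => e (y a) = e (y b))
  obtain ⟨n, hn, h⟩ := pf_RA N _ inferInstance k κ r (fun j b => ⟨x j b, hp.xN j b⟩)
    (fun j m c => ⟨v j m c, hp.vN j m c⟩) lab S
  have harr : ∀ p : Idx k κ, ((arr (fun j b => (⟨x j b, hp.xN j b⟩ : N))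
      (fun j m c => ⟨v j m c, hp.vN j m c⟩) S n p : N) : α) = arr x v S n p := by
    rintro ⟨i, w | w⟩ <;> rfl
  refine ⟨n, hn, fun p q hpV hqV hpq γ => ?_, fun p p' q q' h1 h2 h3 h4 hpq => ?_⟩
  · have h1 := congrFun (congrArg Prod.fst (h p q hpV hqV hpq)) γ
    have h2 := congrArg Subtype.val h1
    simp only [lab] at h2
    simp only [harr] at h2
    exact h2
  · let P : Fin r → Idx k κ := fun i => if (i : ℕ) = 0 then p else p'
    let Q : Fin r → Idx k κ := fun i => if (i : ℕ) = 0 then q else q'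
    have hP : ∀ i, P i = ![p, p'] (if (i : ℕ) = 0 then 0 else 1) := by
      intro i
      simp only [P]
      split_ifs <;> rfl
    have hQ : ∀ i, Q i = ![q, q'] (if (i : ℕ) = 0 then 0 else 1) := by
      intro i
      simp only [Q]
      split_ifs <;> rfl
    have hPQ : SamePat P Q := by
      refine ⟨fun i => ?_, fun i j => ?_, fun i j => ?_⟩
      · rw [hP, hQ]
        exact hpq.kd _
      · rw [hP, hP, hQ, hQ]
        exact hpq.ord _ _
      · rw [hP, hP, hQ, hQ]
        exact hpq.mem _ _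
    have h5 := h P Q (fun i => by simp only [P]; split_ifs <;> assumption)
      (fun i => by simp only [Q]; split_ifs <;> assumption) hPQ
    have h6 := congrFun (congrFun (congrArg Prod.snd h5) ⟨0, by omega⟩) ⟨1, by omega⟩
    simp only [lab] at h6
    simp only [harr, P, Q, if_true, one_ne_zero, if_false] at h6
    exact iff_of_eq h6

end Pool.Agent.H75.HCI
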