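import Pool.Agent.H75.HCI.MK
import Pool.Agent.H75.HCI.ARR

/-!
# Arrays from sequences, second part
-/

set_option autoImplicit false

namespace Pool.Agent.H75.HCI

open Set

variable {α β L : Type} {t : List α → L} {e : α → β} {N : Set α} {z : List α} {k κ r : ℕ}
  {cl : Fin k → Fin k} {S : ℕ → ℕ}

lemma samePat_comp {n m : ℕ} {p q : Fin n → Idx k κ} (h : SamePat p q) (f : Fin m → Fin n) :
    SamePat (p ∘ f) (q ∘ f) :=
  ⟨fun _ => h.kd _, fun _ _ => h.ord _ _, fun _ _ => h.mem _ _⟩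

lemma kd_inr {w w' : Fin k ⊕ ℕ × Fin κ} (h : kd w = kd w') {u : ℕ × Fin κ} (hw : w = .inr u) :
    ∃ u' : ℕ × Fin κ, w' = .inr u' := by
  subst hw
  rcases w' with w' | w'
  · simp [kd] at h
  · exact ⟨w', rfl⟩

lemma samePat_trans {n : ℕ} {p q s : Fin n → Idx k κ} (h : SamePat p q) (h' : SamePat q s) :
    SamePat p s := by
  refine ⟨fun i => (h.kd i).trans (h'.kd i), fun i j => (h.ord i j).trans (h'.ord i j), ?_⟩
  intro i j hij u u' v v' h1 h2 h3 h4
  obtain ⟨w1, hw1⟩ := kd_inr (h.kd i) h1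
  obtain ⟨w2, hw2⟩ := kd_inr (h.kd j) h2
  have hij' : (q i).1 = (q j).1 := by
    have e1 := h.ord i j
    have e2 := h.ord j i
    omega
  exact (h.mem i j hij u w1 v w2 h1 h2 hw1 hw2).trans (h'.mem i j hij' w1 u' w2 v' hw1 hw2 h3 h4)

lemma samePat_patOn {n : ℕ} {h : Idx k κ → Idx k κ} {A : Set (Idx k κ)} (hh : PatOn h A)
    (p : Fin n → Idx k κ) (hp : ∀ i, p i ∈ A) : SamePat p (h ∘ p) := by
  refine ⟨fun i => (hh.kd _ (hp i)).symm, fun i j => (hh.ord _ (hp i) _ (hp j)).symm, ?_⟩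
  intro i j hij u u' v v' h1 h2 h3 h4
  exact (hh.mem _ (hp i) _ (hp j) hij u u' v v' h1 h2 h3 h4).symm

/-- The shift of a list. -/
def shl (l : List (Idx k κ)) : ℕ :=
  (l.map fun p => p.2.elim (fun _ => 0) fun q => q.1 + 1).sum

lemma shl_lt {l : List (Idx k κ)} {p : Idx k κ} (hp : p ∈ l) {q : ℕ × Fin κ} (h : p.2 = .inr q) :
    q.1 < shl l := by
  have h1 : (p.2.elim (fun _ => 0) fun q => q.1 + 1) ≤ shl l :=
    List.single_le_sum (fun _ _ => Nat.zero_le _) _ (List.mem_map.2 ⟨p, hp, rfl⟩)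
  rw [h] at h1
  exact h1

lemma sh_shl_mem (hS : StrictMono S) {l : List (Idx k κ)} {p : Idx k κ} (hp : p ∈ l) :
    sh (fun i => i + shl l) p ∈ V k κ S := by
  intro q hq
  have h1 := shl_lt hp hq
  have h2 : p.1 + shl l ≤ S (p.1 + shl l) := hS.id_le _
  change q.1 < S (p.1 + shl l)
  omega

/-- The labels of the array. -/
def TT (t : List α → L) (z : List α) (pt : Idx k κ → α) (l : List (Idx k κ)) : List ℕ → L :=
  ft t (z ++ (l.map (sh fun i => i + shl l)).map pt)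

lemma tt_ofFn (pt : Idx k κ → α) {n : ℕ} (p : Fin n → Idx k κ) :
    TT t z pt (List.ofFn p) =
      ft t (z ++ List.ofFn (pt ∘ sh (fun i => i + shl (List.ofFn p)) ∘ p)) := by
  unfold TT
  rw [List.map_ofFn, List.map_ofFn]

lemma sh_strict (a : ℕ) : StrictMono fun i : ℕ => i + a := fun _ _ h => by
  change _ + a < _ + a
  omega

/-- Pattern invariance of the labels in the visible part. -/
theorem inv_lab (hloc : Loc r t) {pt : Idx k κ → α}
    (h : ∀ p q : Fin r → Idx k κ, (∀ i, p i ∈ V k κ S) → (∀ i, q i ∈ V k κ S) → SamePat p q →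
      ∀ γ : Cod r z.length, t (lc z (fun i => pt (p i)) γ) = t (lc z (fun i => pt (q i)) γ))
    {n : ℕ} (p q : Fin n → Idx k κ) (hp : ∀ i, p i ∈ V k κ S) (hq : ∀ i, q i ∈ V k κ S)
    (hpq : SamePat p q) : ft t (z ++ List.ofFn (pt ∘ p)) = ft t (z ++ List.ofFn (pt ∘ q)) := by
  rcases Nat.eq_zero_or_pos n with rfl | hn
  · simp
  · exact loc_code hloc hn _ _ fun f γ => h (p ∘ f) (q ∘ f) (fun i => hp _) (fun i => hq _)
      (samePat_comp hpq f) γ

theorem tt_patInv (hS : StrictMono S) {pt : Idx k κ → α}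
    (h : ∀ (n : ℕ) (p q : Fin n → Idx k κ), (∀ i, p i ∈ V k κ S) → (∀ i, q i ∈ V k κ S) →
      SamePat p q → ft t (z ++ List.ofFn (pt ∘ p)) = ft t (z ++ List.ofFn (pt ∘ q))) :
    PatInv (TT t z pt) := by
  intro g A hg l hl
  have hl1 : l = List.ofFn l.get := (List.ofFn_get l).symm
  have hl2 : l.map g = List.ofFn (g ∘ l.get) := by
    conv_lhs => rw [hl1]
    rw [List.map_ofFn]
  have hmem : ∀ i, l.get i ∈ A := fun i => hl _ (l.get_mem i)
  rw [hl2]
  conv_rhs => rw [hl1]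
  rw [tt_ofFn, tt_ofFn]
  have s1 := samePat_patOn (pat_sh (k := k) (κ := κ) (sh_strict (shl (List.ofFn (g ∘ l.get))))
    univ) (g ∘ l.get) fun _ => mem_univ _
  have s2 := samePat_patOn (pat_sh (k := k) (κ := κ) (sh_strict (shl (List.ofFn l.get))) univ)
    l.get fun _ => mem_univ _
  have s3 := samePat_patOn hg l.get hmem
  refine h _ _ _ (fun i => ?_) (fun i => ?_)
    (samePat_trans (samePat_symm s1) (samePat_trans (samePat_symm s3) s2))
  · refine sh_shl_mem hS ?_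
    rw [List.mem_ofFn]
    exact ⟨i, rfl⟩
  · refine sh_shl_mem hS ?_
    rw [List.mem_ofFn]
    exact ⟨i, rfl⟩

theorem tt_lab (hS : StrictMono S) {pt : Idx k κ → α}
    (h : ∀ (n : ℕ) (p q : Fin n → Idx k κ), (∀ i, p i ∈ V k κ S) → (∀ i, q i ∈ V k κ S) →
      SamePat p q → ft t (z ++ List.ofFn (pt ∘ p)) = ft t (z ++ List.ofFn (pt ∘ q)))
    (l : List (Idx k κ)) (hl : ∀ p ∈ l, p ∈ V k κ S) : TT t z pt l = ft t (z ++ l.map pt) := by
  have hl1 : l = List.ofFn l.get := (List.ofFn_get l).symm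
  have hl2 : l.map pt = List.ofFn (pt ∘ l.get) := by
    conv_lhs => rw [hl1]
    rw [List.map_ofFn]
  rw [hl2]
  conv_lhs => rw [hl1]
  rw [tt_ofFn]
  have s2 := samePat_patOn (pat_sh (k := k) (κ := κ) (sh_strict (shl (List.ofFn l.get))) univ)
    l.get fun _ => mem_univ _
  refine h _ _ _ (fun i => ?_) (fun i => hl _ (l.get_mem i)) (samePat_symm s2)
  refine sh_shl_mem hS ?_
  rw [List.mem_ofFn]
  exact ⟨i, rfl⟩

/-- Moving a member of a block does not change the pattern of a pair. -/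
lemma samePat_move (p : Idx k κ) (i m m' : ℕ) (c : Fin κ)
    (hp : p.1 = i → ∃ b, p.2 = .inl b) :
    SamePat ![p, ((i, .inr (m, c)) : Idx k κ)] ![p, ((i, .inr (m', c)) : Idx k κ)] := by
  refine ⟨fun a => ?_, fun a b => ?_, fun a b hab u u' w w' h1 h2 h3 h4 => ?_⟩
  · fin_cases a <;> rfl
  · fin_cases a <;> fin_cases b <;> exact Iff.rfl
  · fin_cases a <;> fin_cases b
    · change p.2 = .inr u at h1
      change p.2 = .inr w at h2
      change p.2 = .inr u' at h3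
      change p.2 = .inr w' at h4
      rw [h1] at h2 h3 h4
      rw [← Sum.inr.inj h2, ← Sum.inr.inj h3, ← Sum.inr.inj h4]
    · obtain ⟨b, hb⟩ := hp hab
      change p.2 = .inr u at h1
      rw [h1] at hb
      cases hb
    · obtain ⟨b, hb⟩ := hp hab.symm
      change p.2 = .inr w at h2
      rw [h2] at hb
      cases hb
    · change (.inr (m, c) : Fin k ⊕ ℕ × Fin κ) = .inr u at h1
      change (.inr (m, c) : Fin k ⊕ ℕ × Fin κ) = .inr w at h2
      change (.inr (m', c) : Fin k ⊕ ℕ × Fin κ) = .inr u' at h3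
      change (.inr (m', c) : Fin k ⊕ ℕ × Fin κ) = .inr w' at h4
      rw [← Sum.inr.inj h1, ← Sum.inr.inj h2, ← Sum.inr.inj h3, ← Sum.inr.inj h4]
      simp only [lt_self_iff_false]

lemma samePat_swap {p p' q q' : Idx k κ} (h : SamePat ![p, p'] ![q, q']) :
    SamePat ![p', p] ![q', q] := by
  have := samePat_comp h ![(1 : Fin 2), 0]
  have e1 : (![p, p'] ∘ ![(1 : Fin 2), 0]) = ![p', p] := by
    funext i
    fin_cases i <;> rfl
  have e2 : (![q, q'] ∘ ![(1 : Fin 2), 0]) = ![q', q] := by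
    funext i
    fin_cases i <;> rfl
  rwa [e1, e2] at this

end Pool.Agent.H75.HCI
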