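import Pool.Agent.H75.HCI.MK2

/-!
# Arrays from sequences, third part
-/

set_option autoImplicit false

namespace Pool.Agent.H75.HCI

open Set

variable {α β L : Type} {t : List α → L} {e : α → β} {N : Set α} {z : List α} {k κ r : ℕ}
  {cl : Fin k → Fin k} {S : ℕ → ℕ}

/-- The classes of the points of a homogeneous array. -/
theorem arr_cls {x : ℕ → Fin k → α} {v : ℕ → ℕ → Fin κ → α} (hp : ArrPre t e N z cl x v)
    (hS2 : ∀ i, 2 ≤ S i) {n : ℕ → ℕ} (hn : StrictMono n)
    (h : ∀ p p' q q' : Idx k κ, p ∈ V k κ S → p' ∈ V k κ S → q ∈ V k κ S → q' ∈ V k κ S →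
      SamePat ![p, p'] ![q, q'] → (e (arr x v S n p) = e (arr x v S n p') ↔
        e (arr x v S n q) = e (arr x v S n q')))
    (p q : Idx k κ) (hpV : p ∈ V k κ S) (hqV : q ∈ V k κ S) :
    e (arr x v S n p) = e (arr x v S n q) ↔ ec cl p = ec cl q := by
  have hst : ∀ i j, i ≠ j → n (st S i) ≠ n (st S j) := by
    intro i j hij hcon
    rcases lt_or_gt_of_ne hij with h1 | h1
    · have := st_mono S h1
      have := hn.injective hcon
      omega
    · have := st_mono S h1
      have := hn.injective hcon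
      omega
  -- a point of a block and any point of another block, or a point of the tuple
  have move : ∀ (p : Idx k κ) (i m : ℕ) (c : Fin κ), p ∈ V k κ S →
      ((i, .inr (m, c)) : Idx k κ) ∈ V k κ S → (p.1 = i → ∃ b, p.2 = .inl b) →
      e (arr x v S n p) ≠ e (arr x v S n (i, .inr (m, c))) := by
    intro p i m c hpV hqV hpi hcon
    obtain ⟨m', hm', hmm⟩ : ∃ m' < S i, m' ≠ m := by
      have := hS2 i
      by_cases h0 : m = 0
      · exact ⟨1, by omega, by omega⟩
      · exact ⟨0, by omega, by omega⟩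
    have hqV' : ((i, .inr (m', c)) : Idx k κ) ∈ V k κ S := by
      intro q hq
      have : (m', c) = q := Sum.inr.inj hq
      rw [← this]
      exact hm'
    have h1 := (h p (i, .inr (m, c)) p (i, .inr (m', c)) hpV hqV hpV hqV'
      (samePat_move p i m m' c hpi)).1 hcon
    rw [hcon] at h1
    refine hp.vdis _ _ _ c c (fun h2 => hmm ?_) h1
    have h3 : st S i + 1 + m = st S i + 1 + m' := hn.injective h2
    omega
  obtain ⟨i, w⟩ := p
  obtain ⟨j, w'⟩ := q
  rcases w with b | u <;> rcases w' with b' | u'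
  · change e (x (n (st S i)) b) = e (x (n (st S j)) b') ↔ _
    by_cases hij : i = j
    · subst hij
      rw [hp.xcl]
      simp [ec]
    · constructor
      · intro h1
        exact absurd h1 (hp.xdis _ _ _ _ (hst i j hij))
      · intro h1
        exact absurd (Prod.ext_iff.1 h1).1 hij
  · constructor
    · intro h1
      exact absurd h1 (move _ _ _ _ hpV hqV fun _ => ⟨b, rfl⟩)
    · intro h1
      simp [ec] at h1
  · constructor
    · intro h1
      exact absurd h1.symm (move _ _ _ _ hqV hpV fun _ => ⟨b', rfl⟩)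
    · intro h1
      simp [ec] at h1
  · by_cases hij : i = j
    · subst hij
      constructor
      · intro h1
        by_cases hm : u.1 = u'.1
        · simp [ec, hm]
        · refine absurd h1 (hp.vdis _ _ _ _ _ fun h2 => hm ?_)
          have h3 : st S i + 1 + u.1 = st S i + 1 + u'.1 := hn.injective h2
          omega
      · intro h1
        have h2 : u.1 = u'.1 := by simpa [ec] using h1
        change e (v (n (st S i)) (n (st S i + 1 + u.1)) u.2) =
          e (v (n (st S i)) (n (st S i + 1 + u'.1)) u'.2)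
        rw [h2]
        exact hp.vcl _ _ _ _
    · constructor
      · intro h1
        exact absurd h1 (move _ _ _ _ hpV hqV fun h2 => absurd h2 hij)
      · intro h1
        exact absurd (Prod.ext_iff.1 h1).1 hij

/-- Arrays from sequences. -/
theorem mk_arr (hr : 2 ≤ r) (hloc : Loc r t) (hfin : {y | ∃ l : List α, l.length ≤ r ∧
    (∀ x ∈ l, x ∈ N) ∧ t l = y}.Finite) {x : ℕ → Fin k → α} {v : ℕ → ℕ → Fin κ → α}
    (hp : ArrPre t e N z cl x v) (hS : StrictMono S) (hS2 : ∀ i, 2 ≤ S i) :
    ∃ n : ℕ → ℕ, StrictMono n ∧ ∃ T : List (Idx k κ) → (List ℕ → L), PatInv T ∧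
      Arr (ft t) e N z cl T S (arr x v S n) := by
  obtain ⟨n, hn, h1, h2⟩ := homog hr hfin hp S
  have h3 : ∀ (m : ℕ) (p q : Fin m → Idx k κ), (∀ i, p i ∈ V k κ S) → (∀ i, q i ∈ V k κ S) →
      SamePat p q → ft t (z ++ List.ofFn (arr x v S n ∘ p)) =
        ft t (z ++ List.ofFn (arr x v S n ∘ q)) := fun m p q => inv_lab hloc h1 p q
  have hcls := arr_cls hp hS2 hn h2
  refine ⟨n, hn, TT t z (arr x v S n), tt_patInv hS h3, ?_, ?_,
    fun p h4 q h5 => hcls p q h4 h5, ?_, hp.zN, hp.zfull, ?_, fun l hl => tt_lab hS h3 l hl⟩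
  · intro p hpV q hqV hpq
    have h4 := (hcls p q hpV hqV).1 (congrArg e hpq)
    obtain ⟨i, w⟩ := p
    obtain ⟨j, w'⟩ := q
    have hij : i = j := (Prod.ext_iff.1 h4).1
    subst hij
    rcases w with b | u <;> rcases w' with b' | u'
    · have : x (n (st S i)) b = x (n (st S i)) b' := hpq
      rw [hp.xinj _ this]
    · simp [ec] at h4
    · simp [ec] at h4
    · have h5 : u.1 = u'.1 := by simpa [ec] using h4
      have h6 : v (n (st S i)) (n (st S i + 1 + u.1)) u.2 =
        v (n (st S i)) (n (st S i + 1 + u'.1)) u'.2 := hpq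
      rw [← h5] at h6
      have h7 := hp.vinj _ _ h6
      have h8 : u = u' := Prod.ext h5 h7
      rw [h8]
  · rintro ⟨i, b | u⟩ -
    · exact hp.xN _ _
    · exact hp.vN _ _ _
  · rintro ⟨i, b | u⟩ hpV y hy hey
    · obtain ⟨b', hb'⟩ := hp.xfull _ _ y hy hey
      refine ⟨(i, .inl b'), ?_, hb'⟩
      intro q hq
      cases hq
    · obtain ⟨c', hc'⟩ := hp.vfull _ _ _ y hy hey
      refine ⟨(i, .inr (u.1, c')), ?_, hc'⟩
      intro q hq
      have h4 : (u.1, c') = q := Sum.inr.inj hq
      rw [← h4]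
      exact hpV u rfl
  · rintro ⟨i, b | u⟩ -
    · exact hp.xz _ _
    · exact hp.vz _ _ _

end Pool.Agent.H75.HCI
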