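import Pool.Agent.H75.HCI.Defs

/-!
# s-parts: unions, components, preimages
-/

set_option autoImplicit false

namespace Pool.Agent.H75.HCI

open Set

section

variable {α β L : Type} {t : List α → L} {e : α → β} {N : Set α}

lemma pt_mono {P Q : Set β} (h : P ⊆ Q) : Pt e N P ⊆ Pt e N Q := fun _ hx => ⟨hx.1, h hx.2⟩

lemma emb_mono {α' β' : Type} {t' : List α' → L} {e' : α' → β'} {f : α → α'} {A A' : Set α}
    (h : Emb t e t' e' f A') (hA : A ⊆ A') : Emb t e t' e' f A :=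
  ⟨h.inj.mono hA, fun l hl => h.lab l fun x hx => hA (hl x hx),
    fun x hx y hy => h.cls x (hA hx) y (hA hy)⟩

lemma mv_refl (C D : Set β) : Mv t e N C D D := by
  refine ⟨id, ⟨injOn_id _, fun l _ => by rw [List.map_id], fun x _ y _ => Iff.rfl⟩, image_id _,
    fun _ _ => rfl⟩

lemma mv_trans {C D1 D2 D3 : Set β} (h1 : Mv t e N C D1 D2) (h2 : Mv t e N C D2 D3) :
    Mv t e N C D1 D3 := by
  obtain ⟨f, f1, f2, f3⟩ := h1
  obtain ⟨g, g1, g2, g3⟩ := h2
  have hm : MapsTo f (Pt e N (C ∪ D1)) (Pt e N (C ∪ D2)) := by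
    rintro x ⟨hx, hx'⟩
    rcases hx' with hx' | hx'
    · rw [f3 x ⟨hx, hx'⟩]
      exact ⟨hx, Or.inl hx'⟩
    · have : f x ∈ Pt e N D2 := by
        rw [← f2]
        exact ⟨x, ⟨hx, hx'⟩, rfl⟩
      exact ⟨this.1, Or.inr this.2⟩
  refine ⟨g ∘ f, ⟨g1.inj.comp f1.inj hm, fun l hl => ?_, fun x hx y hy => ?_⟩, ?_, fun x hx => ?_⟩
  · rw [← List.map_map, g1.lab, f1.lab l hl]
    intro y hy
    obtain ⟨x, hx, rfl⟩ := List.mem_map.1 hy
    exact hm (hl x hx)
  · rw [← f1.cls x hx y hy]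
    exact g1.cls _ (hm hx) _ (hm hy)
  · rw [image_comp, f2, g2]
  · change g (f x) = x
    rw [f3 x hx, g3 x hx]

/-- One token is moved in an s-part. -/
lemma token {B : Set β} (hB : SPart t e N B) [DecidableEq β] (C D : Finset β)
    (hC : ∀ c ∈ C, c ∉ B) (a b : β) (ha : a ∈ D) (hb : b ∉ D) (haB : a ∈ B) (hbB : b ∈ B) :
    Mv t e N (C : Set β) (D : Set β) ((insert b (D.erase a) : Finset β) : Set β) := by
  classical
  have hab : a ≠ b := fun h => hb (h ▸ ha)
  obtain ⟨f, f1, f2, f3⟩ := hB.hom (C ∪ D.filter fun x => x ∉ B) (D.filter fun x => x ∈ B)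
    (insert b ((D.filter fun x => x ∈ B).erase a)) (by
      intro c hc
      rcases Finset.mem_union.1 hc with h | h
      · exact hC c h
      · exact (Finset.mem_filter.1 h).2)
    (fun d hd => (Finset.mem_filter.1 hd).2) (by
      intro d hd
      rcases Finset.mem_insert.1 hd with rfl | h
      · exact hbB
      · exact (Finset.mem_filter.1 (Finset.mem_of_mem_erase h)).2) (by
      have h1 : a ∈ D.filter fun x => x ∈ B := Finset.mem_filter.2 ⟨ha, haB⟩
      have h2 : b ∉ (D.filter fun x => x ∈ B).erase a := fun h =>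
        hb (Finset.mem_filter.1 (Finset.mem_of_mem_erase h)).1
      rw [Finset.card_insert_of_notMem h2, Finset.card_erase_of_mem h1]
      have := Finset.card_pos.2 ⟨a, h1⟩
      omega)
  have hset : ((C ∪ D.filter fun x => x ∉ B : Finset β) : Set β) ∪
      (D.filter fun x => x ∈ B : Finset β) = (C : Set β) ∪ D := by
    ext x
    simp only [Finset.coe_union, Finset.coe_filter, mem_union, Finset.mem_coe, mem_ofPred_eq]
    tauto
  rw [hset] at f1
  refine ⟨f, f1, ?_, fun x hx => f3 x ⟨hx.1, ?_⟩⟩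
  · have hsplit : Pt e N (D : Set β) = Pt e N ((D.filter fun x => x ∉ B : Finset β) : Set β) ∪
        Pt e N ((D.filter fun x => x ∈ B : Finset β) : Set β) := by
      ext x
      simp only [Pt, Finset.coe_filter, mem_union, mem_ofPred_eq, Finset.mem_coe]
      tauto
    have hid : f '' Pt e N ((D.filter fun x => x ∉ B : Finset β) : Set β) =
        Pt e N ((D.filter fun x => x ∉ B : Finset β) : Set β) := by
      have hEq : EqOn f id (Pt e N ((D.filter fun x => x ∉ B : Finset β) : Set β)) := by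
        intro x hx
        refine f3 x ⟨hx.1, ?_⟩
        rw [Finset.coe_union]
        exact Or.inr hx.2
      rw [hEq.image_eq, image_id]
    rw [hsplit, image_union, hid, f2]
    ext x
    simp only [Pt, Finset.coe_filter, mem_union, mem_ofPred_eq, Finset.coe_insert, Finset.coe_erase,
      mem_insert_iff, Set.mem_sdiff, mem_singleton_iff, Finset.mem_coe]
    refine ⟨?_, ?_⟩
    · rintro (⟨h1, h2, h3⟩ | ⟨h1, h2 | ⟨⟨h2, h3⟩, h4⟩⟩)
      · exact ⟨h1, Or.inr ⟨h2, fun h => h3 (h ▸ haB)⟩⟩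
      · exact ⟨h1, Or.inl h2⟩
      · exact ⟨h1, Or.inr ⟨h2, h4⟩⟩
    · rintro ⟨h1, h2 | ⟨h2, h3⟩⟩
      · exact Or.inr ⟨h1, Or.inl h2⟩
      · by_cases h4 : e x ∈ B
        · exact Or.inr ⟨h1, Or.inr ⟨⟨h2, h4⟩, h3⟩⟩
        · exact Or.inl ⟨h1, h2, h4⟩
  · rw [Finset.coe_union]
    exact Or.inl hx.2

/-- One token is moved in the union of two s-parts. -/
lemma token2 {B1 B2 : Set β} (h1 : SPart t e N B1) (h2 : SPart t e N B2) [DecidableEq β]
    (C D : Finset β) (hC : ∀ c ∈ C, c ∉ B1 ∪ B2) (a b p : β) (ha : a ∈ D) (hb : b ∉ D)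
    (haB : a ∈ B1) (hbB : b ∈ B2) (hp1 : p ∈ B1) (hp2 : p ∈ B2) :
    Mv t e N (C : Set β) (D : Set β) ((insert b (D.erase a) : Finset β) : Set β) := by
  have hab : a ≠ b := fun h => hb (h ▸ ha)
  have hC1 : ∀ c ∈ C, c ∉ B1 := fun c hc h => hC c hc (Or.inl h)
  have hC2 : ∀ c ∈ C, c ∉ B2 := fun c hc h => hC c hc (Or.inr h)
  by_cases hpD : p ∈ D
  · -- first `p` to `b`, then `a` to `p`
    by_cases hpa : p = a
    · subst hpa
      exact token h2 C D hC2 p b ha hb hp2 hbB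
    · have s1 := token h2 C D hC2 p b hpD hb hp2 hbB
      have haD : a ∈ insert b (D.erase p) :=
        Finset.mem_insert_of_mem (Finset.mem_erase.2 ⟨fun h => hpa h.symm, ha⟩)
      have hpb : p ≠ b := fun h => hb (h ▸ hpD)
      have hpD' : p ∉ insert b (D.erase p) := by
        rw [Finset.mem_insert, not_or]
        exact ⟨hpb, Finset.notMem_erase p D⟩
      have s2 := token h1 C (insert b (D.erase p)) hC1 a p haD hpD' haB hp1
      have heq : insert p ((insert b (D.erase p)).erase a) = insert b (D.erase a) := by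
        ext x
        simp only [Finset.mem_insert, Finset.mem_erase]
        by_cases hxp : x = p
        · subst hxp
          simp [hpa, hpD]
        · by_cases hxb : x = b
          · subst hxb
            simp [hab.symm]
          · simp [hxp, hxb]
      rw [heq] at s2
      exact mv_trans s1 s2
  · -- first `a` to `p`, then `p` to `b`
    by_cases hpb : p = b
    · subst hpb
      exact token h1 C D hC1 a p ha hb haB hp1
    · have s1 := token h1 C D hC1 a p ha hpD haB hp1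
      have hbD : b ∉ insert p (D.erase a) := by
        rw [Finset.mem_insert, not_or]
        exact ⟨fun h => hpb h.symm, fun h => hb (Finset.mem_of_mem_erase h)⟩
      have s2 := token h2 C (insert p (D.erase a)) hC2 p b (Finset.mem_insert_self _ _) hbD hp2 hbB
      have heq : insert b ((insert p (D.erase a)).erase p) = insert b (D.erase a) := by
        rw [Finset.erase_insert]
        intro h
        exact hpD (Finset.mem_of_mem_erase h)
      rw [heq] at s2
      exact mv_trans s1 s2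

/-- Two s-parts with a common class have an s-part as union. -/
theorem spart_union {B1 B2 : Set β} (h1 : SPart t e N B1) (h2 : SPart t e N B2) (p : β)
    (hp1 : p ∈ B1) (hp2 : p ∈ B2) : SPart t e N (B1 ∪ B2) := by
  classical
  refine ⟨union_subset h1.sub h2.sub, fun C D1 D2 hC => ?_⟩
  have key : ∀ n, ∀ D1 : Finset β, (D1 \ D2).card = n → (∀ d ∈ D1, d ∈ B1 ∪ B2) →
      (∀ d ∈ D2, d ∈ B1 ∪ B2) → D1.card = D2.card → Mv t e N (C : Set β) D1 D2 := by
    intro n
    induction n with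
    | zero =>
      intro D1 hn _ _ hcard
      have hsub : D1 ⊆ D2 := by
        rwa [Finset.card_eq_zero, Finset.sdiff_eq_empty_iff_subset] at hn
      rw [Finset.eq_of_subset_of_card_le hsub (le_of_eq hcard.symm)]
      exact mv_refl _ _
    | succ n ih =>
      intro D1 hn hD1 hD2 hcard
      obtain ⟨a, ha⟩ : (D1 \ D2).Nonempty := Finset.card_pos.1 (by omega)
      obtain ⟨b, hb⟩ : (D2 \ D1).Nonempty := by
        refine Finset.card_pos.1 ?_
        have e1 := Finset.card_sdiff_add_card_inter D1 D2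
        have e2 := Finset.card_sdiff_add_card_inter D2 D1
        rw [Finset.inter_comm] at e2
        omega
      rw [Finset.mem_sdiff] at ha hb
      have hmv : Mv t e N (C : Set β) (D1 : Set β) ((insert b (D1.erase a) : Finset β) : Set β) := by
        rcases hD1 a ha.1 with ha' | ha' <;> rcases hD2 b hb.1 with hb' | hb'
        · exact token h1 C D1 (fun c hc h => hC c hc (Or.inl h)) a b ha.1 hb.2 ha' hb'
        · exact token2 h1 h2 C D1 hC a b p ha.1 hb.2 ha' hb' hp1 hp2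
        · exact token2 h2 h1 C D1 (fun c hc h => hC c hc h.symm) a b p ha.1 hb.2 ha' hb' hp2 hp1
        · exact token h2 C D1 (fun c hc h => hC c hc (Or.inr h)) a b ha.1 hb.2 ha' hb'
      have hrest := ih (insert b (D1.erase a)) (by
          have heq : insert b (D1.erase a) \ D2 = (D1 \ D2).erase a := by
            ext x
            simp only [Finset.mem_sdiff, Finset.mem_insert, Finset.mem_erase]
            by_cases hx : x = b
            · subst hx
              simp [hb.1]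
            · simp [hx, and_assoc]
          rw [heq, Finset.card_erase_of_mem (Finset.mem_sdiff.2 ha)]
          omega) (by
          intro d hd
          rcases Finset.mem_insert.1 hd with rfl | h
          · exact hD2 _ hb.1
          · exact hD1 d (Finset.mem_of_mem_erase h)) hD2 (by
          rw [Finset.card_insert_of_notMem fun h => hb.2 (Finset.mem_of_mem_erase h),
            Finset.card_erase_of_mem ha.1]
          have := Finset.card_pos.2 ⟨a, ha.1⟩
          omega)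
      exact mv_trans hmv hrest
  intro hD1 hD2 hcard
  exact key _ D1 rfl hD1 hD2 hcard

lemma spart_single {x : β} (hx : x ∈ e '' N) : SPart t e N {x} := by
  refine ⟨singleton_subset_iff.2 hx, fun C D1 D2 _ h1 h2 hcard => ?_⟩
  have e1 : D1 ⊆ {x} := fun d hd => Finset.mem_singleton.2 (h1 d hd)
  have e2 : D2 ⊆ {x} := fun d hd => Finset.mem_singleton.2 (h2 d hd)
  have : D1 = D2 := by
    rcases Finset.subset_singleton_iff.1 e1 with rfl | rfl <;>
      rcases Finset.subset_singleton_iff.1 e2 with rfl | rfl <;> simp_all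
  rw [this]
  exact mv_refl _ _

lemma eqv_refl {x : β} (hx : x ∈ e '' N) : Eqv t e N x x := ⟨{x}, spart_single hx, rfl, rfl⟩

lemma eqv_symm {x y : β} (h : Eqv t e N x y) : Eqv t e N y x := by
  obtain ⟨B, h1, h2, h3⟩ := h
  exact ⟨B, h1, h3, h2⟩

lemma eqv_trans {x y z : β} (h : Eqv t e N x y) (h' : Eqv t e N y z) : Eqv t e N x z := by
  obtain ⟨B, h1, h2, h3⟩ := h
  obtain ⟨B', h1', h2', h3'⟩ := h'
  exact ⟨B ∪ B', spart_union h1 h1' y h3 h2', Or.inl h2, Or.inr h3'⟩

lemma eqv_mem {x y : β} (h : Eqv t e N x y) : x ∈ e '' N ∧ y ∈ e '' N := by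
  obtain ⟨B, h1, h2, h3⟩ := h
  exact ⟨h1.sub h2, h1.sub h3⟩

/-- The component of a class is an s-part. -/
theorem spart_comp {x : β} (hx : x ∈ e '' N) : SPart t e N {y | Eqv t e N x y} := by
  classical
  refine ⟨fun y hy => (eqv_mem hy).2, fun C D1 D2 hC h1 h2 hcard => ?_⟩
  have key : ∀ D : Finset β, (∀ d ∈ D, Eqv t e N x d) → ∃ B, SPart t e N B ∧ x ∈ B ∧
      ∀ d ∈ D, d ∈ B := by
    intro D
    induction D using Finset.induction_on with
    | empty => intro _; exact ⟨{x}, spart_single hx, rfl, by simp⟩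
    | insert d D _ ih =>
      intro h
      obtain ⟨B, b1, b2, b3⟩ := ih fun d' hd' => h d' (Finset.mem_insert_of_mem hd')
      obtain ⟨B', b1', b2', b3'⟩ := h d (Finset.mem_insert_self _ _)
      refine ⟨B ∪ B', spart_union b1 b1' x b2 b2', Or.inl b2, fun d' hd' => ?_⟩
      rcases Finset.mem_insert.1 hd' with rfl | hd'
      · exact Or.inr b3'
      · exact Or.inl (b3 d' hd')
  obtain ⟨B, b1, b2, b3⟩ := key (D1 ∪ D2) (by
    intro d hd
    rcases Finset.mem_union.1 hd with h | h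
    · exact h1 d h
    · exact h2 d h)
  exact b1.hom C D1 D2 (fun c hc hcB => hC c hc ⟨B, b1, b2, hcB⟩)
    (fun d hd => b3 d (Finset.mem_union_left _ hd)) (fun d hd => b3 d (Finset.mem_union_right _ hd))
    hcard

end

/-- Preimages of s-parts are s-parts. -/
theorem spart_preimage {α α' β β' L : Type} {t : List α → L} {e : α → β} {t' : List α' → L}
    {e' : α' → β'} {N : Set α} {N' : Set α'} {h : α → α'} (hh : Emb t e t' e' h N)
    (hm : MapsTo h N N') (hfull : ∀ x ∈ N, ∀ y ∈ N', e' y = e' (h x) → ∃ x' ∈ N, h x' = y)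
    {B : Set β'} (hB : SPart t' e' N' B) :
    SPart t e N {b | ∃ x ∈ N, e x = b ∧ e' (h x) ∈ B} := by
  classical
  refine ⟨?_, fun C D1 D2 hC h1 h2 hcard => ?_⟩
  · rintro b ⟨x, hx, rfl, _⟩
    exact ⟨x, hx, rfl⟩
  rcases N.eq_empty_or_nonempty with rfl | ⟨x0, hx0⟩
  · have h0 : ∀ P : Set β, Pt e (∅ : Set α) P = ∅ := fun P =>
      eq_empty_of_forall_notMem fun x hx => hx.1.elim
    refine ⟨id, ⟨injOn_id _, fun l _ => by rw [List.map_id], fun x _ y _ => Iff.rfl⟩, ?_,
      fun _ _ => rfl⟩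
    rw [h0, h0, image_empty]
  -- the class map
  have hφ : ∀ b : β, ∃ b' : β', ∀ x ∈ N, e x = b → e' (h x) = b' := by
    intro b
    by_cases hb : ∃ x ∈ N, e x = b
    · obtain ⟨x, hx, rfl⟩ := hb
      exact ⟨e' (h x), fun y hy hxy => (hh.cls y hy x hx).2 hxy⟩
    · exact ⟨e' (h x0), fun x hx hxb => absurd ⟨x, hx, hxb⟩ hb⟩
  choose φ hφ using hφ
  have hφe : ∀ x ∈ N, φ (e x) = e' (h x) := fun x hx => (hφ (e x) x hx rfl).symm
  have hφi : ∀ x ∈ N, ∀ y ∈ N, φ (e x) = φ (e y) → e x = e y := by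
    intro x hx y hy hxy
    rw [hφe x hx, hφe y hy] at hxy
    exact (hh.cls x hx y hy).1 hxy
  set C0 := C.filter fun c => c ∈ e '' N with hC0
  have hPC : Pt e N (C0 : Set β) = Pt e N (C : Set β) := by
    ext x
    rw [hC0]
    simp only [Pt, Finset.coe_filter, mem_ofPred_eq, Finset.mem_coe]
    exact ⟨fun hx => ⟨hx.1, hx.2.1⟩, fun hx => ⟨hx.1, hx.2, ⟨x, hx.1, rfl⟩⟩⟩
  have hcardφ : ∀ D : Finset β, (∀ d ∈ D, ∃ x ∈ N, e x = d ∧ e' (h x) ∈ B) →
      (D.image φ).card = D.card := by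
    intro D hD
    refine Finset.card_image_of_injOn fun a ha b hb hab => ?_
    obtain ⟨x, hx, rfl, _⟩ := hD a ha
    obtain ⟨y, hy, rfl, _⟩ := hD b hb
    exact hφi x hx y hy hab
  have hpt : ∀ D : Finset β, (∀ d ∈ D, d ∈ e '' N) → ∀ x ∈ N,
      (e' (h x) ∈ D.image φ ↔ e x ∈ D) := by
    intro D hD x hx
    rw [Finset.mem_image]
    refine ⟨?_, fun hxD => ⟨e x, hxD, hφe x hx⟩⟩
    rintro ⟨d, hd, hdx⟩
    obtain ⟨y, hy, rfl⟩ := hD d hd
    rw [← hφe x hx] at hdx
    rwa [← hφi y hy x hx hdx]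
  have hN : ∀ D : Finset β, (∀ d ∈ D, ∃ x ∈ N, e x = d ∧ e' (h x) ∈ B) → ∀ d ∈ D, d ∈ e '' N := by
    intro D hD d hd
    obtain ⟨x, hx, h3, _⟩ := hD d hd
    exact ⟨x, hx, h3⟩
  have hCN : ∀ d ∈ C0, d ∈ e '' N := fun d hd => (Finset.mem_filter.1 hd).2
  obtain ⟨f, f1, f2, f3⟩ := hB.hom (C0.image φ) (D1.image φ) (D2.image φ) (by
      intro c hc hcB
      obtain ⟨d, hd, rfl⟩ := Finset.mem_image.1 hc
      obtain ⟨x, hx, rfl⟩ := hCN d hd
      rw [hφe x hx] at hcB
      exact hC _ (Finset.mem_filter.1 hd).1 ⟨x, hx, rfl, hcB⟩) (by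
      intro c hc
      obtain ⟨d, hd, rfl⟩ := Finset.mem_image.1 hc
      obtain ⟨x, hx, rfl, h3⟩ := h1 d hd
      rwa [hφe x hx]) (by
      intro c hc
      obtain ⟨d, hd, rfl⟩ := Finset.mem_image.1 hc
      obtain ⟨x, hx, rfl, h3⟩ := h2 d hd
      rwa [hφe x hx]) (by rw [hcardφ D1 h1, hcardφ D2 h2, hcard])
  -- the map
  have hmC : ∀ x ∈ N, e x ∈ C0 → h x ∈ Pt e' N' (C0.image φ : Finset β') := fun x hx hxC =>
    ⟨hm hx, (hpt C0 hCN x hx).2 hxC⟩
  have hmD : ∀ x ∈ N, e x ∈ D1 → h x ∈ Pt e' N' (D1.image φ : Finset β') := fun x hx hxC =>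
    ⟨hm hx, (hpt D1 (hN D1 h1) x hx).2 hxC⟩
  have hdom : ∀ x ∈ Pt e N ((C0 : Set β) ∪ D1),
      h x ∈ Pt e' N' (((C0.image φ : Finset β') : Set β') ∪ (D1.image φ : Finset β')) := by
    rintro x ⟨hx, hx' | hx'⟩
    · exact ⟨hm hx, Or.inl (hmC x hx hx').2⟩
    · exact ⟨hm hx, Or.inr (hmD x hx hx').2⟩
  have hfx : ∀ x, ∃ x', x ∈ Pt e N ((C0 : Set β) ∪ D1) → x' ∈ N ∧ h x' = f (h x) := by
    intro x
    by_cases hx : x ∈ Pt e N ((C0 : Set β) ∪ D1)
    · rcases hx.2 with hx' | hx'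
      · exact ⟨x, fun _ => ⟨hx.1, (f3 _ (hmC x hx.1 hx')).symm⟩⟩
      · have h3 : f (h x) ∈ Pt e' N' (D2.image φ : Finset β') := by
          rw [← f2]
          exact ⟨_, hmD x hx.1 hx', rfl⟩
        obtain ⟨d, hd, hdx⟩ := Finset.mem_image.1 h3.2
        obtain ⟨y, hy, rfl, _⟩ := h2 d hd
        obtain ⟨x', hx1, hx2⟩ := hfull y hy _ h3.1 (by rw [← hφe y hy, hdx])
        exact ⟨x', fun _ => ⟨hx1, hx2⟩⟩
    · exact ⟨x, fun h' => absurd h' hx⟩
  choose F hF using hfx
  have hmv : Mv t e N (C0 : Set β) D1 D2 := by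
    refine ⟨F, ⟨fun x hx y hy hxy => ?_, fun l hl => ?_, fun x hx y hy => ?_⟩, ?_, fun x hx => ?_⟩
    · have h3 : f (h x) = f (h y) := by rw [← (hF x hx).2, ← (hF y hy).2, hxy]
      exact hh.inj hx.1 hy.1 (f1.inj (hdom x hx) (hdom y hy) h3)
    · have h3 : (l.map F).map h = (l.map h).map f := by
        rw [List.map_map, List.map_map]
        exact List.map_congr_left fun x hx => (hF x (hl x hx)).2
      rw [← hh.lab (l.map F), h3, f1.lab, hh.lab l fun x hx => (hl x hx).1]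
      · intro y hy
        obtain ⟨x, hx, rfl⟩ := List.mem_map.1 hy
        exact hdom x (hl x hx)
      · intro y hy
        obtain ⟨x, hx, rfl⟩ := List.mem_map.1 hy
        exact (hF x (hl x hx)).1
    · rw [← hh.cls _ (hF x hx).1 _ (hF y hy).1, (hF x hx).2, (hF y hy).2,
        f1.cls _ (hdom x hx) _ (hdom y hy), hh.cls x hx.1 y hy.1]
    · refine Subset.antisymm ?_ ?_
      · rintro _ ⟨x, hx, rfl⟩
        have hx' : x ∈ Pt e N ((C0 : Set β) ∪ D1) := ⟨hx.1, Or.inr hx.2⟩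
        have h3 : h (F x) ∈ Pt e' N' (D2.image φ : Finset β') := by
          rw [(hF x hx').2, ← f2]
          exact ⟨_, hmD x hx.1 hx.2, rfl⟩
        exact ⟨(hF x hx').1, (hpt D2 (hN D2 h2) _ (hF x hx').1).1 h3.2⟩
      · intro y hy
        have h3 : h y ∈ f '' Pt e' N' (D1.image φ : Finset β') := by
          rw [f2]
          exact ⟨hm hy.1, (hpt D2 (hN D2 h2) y hy.1).2 hy.2⟩
        obtain ⟨z, hz, hzy⟩ := h3
        obtain ⟨d, hd, hdz⟩ := Finset.mem_image.1 hz.2
        obtain ⟨x0, hx0, rfl, _⟩ := h1 d hd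
        obtain ⟨x, hx, rfl⟩ := hfull x0 hx0 z hz.1 (by rw [← hφe x0 hx0, hdz])
        have hxD : e x ∈ D1 := (hpt D1 (hN D1 h1) x hx).1 hz.2
        have hx' : x ∈ Pt e N ((C0 : Set β) ∪ D1) := ⟨hx, Or.inr hxD⟩
        refine ⟨x, ⟨hx, hxD⟩, hh.inj (hF x hx').1 hy.1 ?_⟩
        rw [(hF x hx').2, hzy]
    · have hx' : x ∈ Pt e N ((C0 : Set β) ∪ D1) := ⟨hx.1, Or.inl hx.2⟩
      refine hh.inj (hF x hx').1 hx.1 ?_
      rw [(hF x hx').2, f3 _ (hmC x hx.1 hx.2)]
  obtain ⟨F, F1, F2, F3⟩ := hmv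
  refine ⟨F, emb_mono F1 ?_, F2, fun x hx => F3 x (by rw [hPC]; exact hx)⟩
  rintro x ⟨hx, hx' | hx'⟩
  · have : x ∈ Pt e N (C0 : Set β) := by rw [hPC]; exact ⟨hx, hx'⟩
    exact ⟨hx, Or.inl this.2⟩
  · exact ⟨hx, Or.inr hx'⟩

/-- Equivalence of classes is reflected by embeddings. -/
theorem eqv_preimage {α α' β β' L : Type} {t : List α → L} {e : α → β} {t' : List α' → L}
    {e' : α' → β'} {N : Set α} {N' : Set α'} {h : α → α'} (hh : Emb t e t' e' h N)
    (hm : MapsTo h N N') (hfull : ∀ x ∈ N, ∀ y ∈ N', e' y = e' (h x) → ∃ x' ∈ N, h x' = y)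
    {x y : α} (hx : x ∈ N) (hy : y ∈ N) (hxy : Eqv t' e' N' (e' (h x)) (e' (h y))) :
    Eqv t e N (e x) (e y) := by
  obtain ⟨B, h1, h2, h3⟩ := hxy
  exact ⟨_, spart_preimage hh hm hfull h1, ⟨x, hx, rfl, h2⟩, ⟨y, hy, rfl, h3⟩⟩

end Pool.Agent.H75.HCI
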